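import Pool.Agent.BV.Final
import Pool.Agent.BGG.Defs

set_option autoImplicit false

/-!
# The bilinear estimate for all moduli `q <= x ^ theta`, `theta < 1/2`, arbitrary classes

From `bv_main`, in the normalisation of `Pool.Agent.BGG`.
-/

namespace Pool.Agent.BV

open Finset Filter Topology
open scoped Classical
open Pool.Agent.BGG

/-- the real bilinear discrepancy is the complex one -/
private theorem BilBV_disc (α β : ℕ → ℝ) (X Y q c : ℕ) (a : ℤ) (h : (q : ℤ) ∣ (c : ℤ) - a) :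
    bdisc (fun n => (α n : ℂ)) (fun n => (β n : ℂ)) X Y q c 1 = ((Dsc2 X Y α β q a : ℝ) : ℂ) := by
  have h1 : ∀ m n : ℕ, (m * n ≡ c [MOD q] ∧ (m * n).Coprime 1) ↔
      (q : ℤ) ∣ ((m * n : ℕ) : ℤ) - a := by
    intro m n
    rw [and_iff_left (Nat.coprime_one_right _)]
    rw [Nat.modEq_iff_dvd]
    constructor
    · intro h2
      have : ((m * n : ℕ) : ℤ) - a = ((c : ℤ) - a) - ((c : ℤ) - ((m * n : ℕ) : ℤ)) := by ring
      rw [this]
      exact dvd_sub h h2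
    · intro h2
      have : (c : ℤ) - ((m * n : ℕ) : ℤ) = ((c : ℤ) - a) - (((m * n : ℕ) : ℤ) - a) := by ring
      rw [this]
      exact dvd_sub h h2
  unfold bdisc bcls bcop Dsc2
  rw [mul_one]
  push_cast
  congr 1
  · apply Finset.sum_congr rfl
    intro m _
    apply Finset.sum_congr rfl
    intro n _
    by_cases h2 : (q : ℤ) ∣ ((m * n : ℕ) : ℤ) - a
    · rw [if_pos ((h1 m n).mpr h2)]
      push_cast at h2
      rw [if_pos h2]
      push_cast
      ring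
    · rw [if_neg (fun h3 => h2 ((h1 m n).mp h3))]
      push_cast at h2
      rw [if_neg h2]
      simp
  · congr 1
    apply Finset.sum_congr rfl
    intro m _
    apply Finset.sum_congr rfl
    intro n _
    split_ifs <;> simp

private theorem BilBV_SW (K : ℕ → ℝ) (x N : ℝ) (β : ℕ → ℝ) (hN : 0 ≤ N) (hL : 0 ≤ Real.log x)
    (h : Pool.Agent.BGG.SW K x N β) :
    SWc (fun j => |K j|) (Real.log x) N (fun n => (β n : ℂ)) ⌊4 * N⌋₊ := by
  intro j r s b hr hs hb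
  have h0 := h j r s (b : ℤ) hr hs (Nat.isCoprime_iff_coprime.mpr hb)
  have h1 : ∀ n : ℕ, (n ≡ b [MOD r]) ↔ (r : ℤ) ∣ (n : ℤ) - (b : ℤ) := by
    intro n
    rw [Nat.modEq_iff_dvd, dvd_sub_comm]
  have h2 : (∑ n ∈ Icc 1 ⌊4 * N⌋₊, if n ≡ b [MOD r] ∧ n.Coprime s then ((β n : ℝ) : ℂ) else 0) -
      (∑ n ∈ Icc 1 ⌊4 * N⌋₊, if n.Coprime (r * s) then ((β n : ℝ) : ℂ) else 0) /
        (r.totient : ℂ) =
      (((∑ n ∈ Icc 1 ⌊4 * N⌋₊, if (r : ℤ) ∣ (n : ℤ) - b ∧ Nat.Coprime n s then β n else 0)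
      - (∑ n ∈ Icc 1 ⌊4 * N⌋₊, if Nat.Coprime n (r * s) then β n else 0) / (r.totient : ℝ) : ℝ) :
        ℂ) := by
    push_cast
    congr 1
    · apply Finset.sum_congr rfl
      intro n _
      by_cases h3 : (r : ℤ) ∣ (n : ℤ) - (b : ℤ) ∧ Nat.Coprime n s
      · rw [if_pos (⟨(h1 n).mpr h3.1, h3.2⟩ : n ≡ b [MOD r] ∧ n.Coprime s), if_pos h3]
      · rw [if_neg (fun h4 : n ≡ b [MOD r] ∧ n.Coprime s => h3 ⟨(h1 n).mp h4.1, h4.2⟩), if_neg h3]
        simp
    · congr 1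
      apply Finset.sum_congr rfl
      intro n _
      split_ifs <;> simp
  rw [h2, Complex.norm_real, Real.norm_eq_abs]
  refine h0.trans ?_
  have ht : (s.divisors.card : ℝ) = tau s := rfl
  rw [ht]
  have hts : 0 ≤ tau s := Nat.cast_nonneg _
  have hpos : 0 ≤ tau s * N / (Real.log x) ^ j := by positivity
  calc K j * tau s * N / (Real.log x) ^ j = K j * (tau s * N / (Real.log x) ^ j) := by ring
    _ ≤ |K j| * (tau s * N / (Real.log x) ^ j) := mul_le_mul_of_nonneg_right (le_abs_self _) hpos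
    _ = _ := by ring

/-- crude bound for small `x` -/
private theorem BilBV_crude (X Y q : ℕ) (a : ℤ) (α β : ℕ → ℝ) (T : ℝ) (hT : 0 ≤ T)
    (hα : ∀ m, |α m| ≤ T) (hβ : ∀ n, |β n| ≤ T) :
    |Dsc2 X Y α β q a| ≤ 2 * (X * Y * T ^ 2) := by
  have hterm : ∀ m n : ℕ, |α m * β n| ≤ T ^ 2 := by
    intro m n
    rw [abs_mul, sq]
    exact mul_le_mul (hα m) (hβ n) (abs_nonneg _) hT
  have hsum : ∀ (P : ℕ → ℕ → Prop) [∀ m n, Decidable (P m n)],
      |∑ m ∈ Icc 1 X, ∑ n ∈ Icc 1 Y, if P m n then α m * β n else 0| ≤ X * Y * T ^ 2 := by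
    intro P _
    refine (Finset.abs_sum_le_sum_abs _ _).trans ?_
    have : ∀ m ∈ Icc 1 X, |∑ n ∈ Icc 1 Y, if P m n then α m * β n else 0| ≤ Y * T ^ 2 := by
      intro m _
      refine (Finset.abs_sum_le_sum_abs _ _).trans ?_
      calc ∑ n ∈ Icc 1 Y, |if P m n then α m * β n else 0| ≤ ∑ n ∈ Icc 1 Y, T ^ 2 := by
            apply Finset.sum_le_sum
            intro n _
            split_ifs
            · exact hterm m n
            · rw [abs_zero]; positivity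
        _ = Y * T ^ 2 := by simp
    calc _ ≤ ∑ m ∈ Icc 1 X, (Y : ℝ) * T ^ 2 := Finset.sum_le_sum this
      _ = X * Y * T ^ 2 := by simp; ring
  unfold Dsc2
  refine (abs_sub _ _).trans ?_
  have h1 := hsum (fun m n => (q : ℤ) ∣ ((m * n : ℕ) : ℤ) - a)
  have h2 := hsum (fun m n => Nat.Coprime (m * n) q)
  have h3 : |(∑ m ∈ Icc 1 X, ∑ n ∈ Icc 1 Y, if Nat.Coprime (m * n) q then α m * β n else 0) /
      (q.totient : ℝ)| ≤ X * Y * T ^ 2 := by
    rw [abs_div]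
    rcases Nat.eq_zero_or_pos q.totient with h | h
    · rw [h]; simp; positivity
    · have h4 : (1 : ℝ) ≤ |(q.totient : ℝ)| := by
        rw [abs_of_nonneg (Nat.cast_nonneg _)]; exact_mod_cast h
      exact (div_le_self (abs_nonneg _) h4).trans h2
  linarith

/-- a representative of the class, in the natural numbers -/
private theorem BilBV_class (a : ℕ → ℤ) : ∃ c : ℕ → ℕ, (∀ q, (c q).Coprime q) ∧
    ∀ q, 1 ≤ q → IsCoprime (a q) (q : ℤ) → (q : ℤ) ∣ (c q : ℤ) - a q := by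
  refine ⟨fun q => if IsCoprime (a q) (q : ℤ) ∧ 1 ≤ q then (a q % q).toNat else 1, ?_, ?_⟩
  · intro q
    dsimp only
    split_ifs with h
    · have hq : (0 : ℤ) < q := by exact_mod_cast h.2
      have hnn : 0 ≤ a q % q := Int.emod_nonneg _ hq.ne'
      rw [← Nat.isCoprime_iff_coprime, Int.toNat_of_nonneg hnn]
      have h2 : IsCoprime (a q - q * (a q / q)) (q : ℤ) := by
        have := h.1.add_mul_left_left (-(a q / q))
        rw [show a q - (q : ℤ) * (a q / q) = a q + (q : ℤ) * (-(a q / q)) by ring]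
        exact this
      rwa [Int.emod_def]
    · exact Nat.coprime_one_left q
  · intro q hq h
    dsimp only
    rw [if_pos ⟨h, hq⟩]
    have hq' : (0 : ℤ) < q := by exact_mod_cast hq
    have hnn : 0 ≤ a q % q := Int.emod_nonneg _ hq'.ne'
    rw [Int.toNat_of_nonneg hnn, Int.emod_def]
    exact ⟨-(a q / q), by ring⟩

/-- The bilinear estimate for all moduli `q <= x ^ theta`, `theta < 1/2`, with classes depending
on the modulus. -/
theorem bil_bv (θ : ℝ) (hθ : θ < 1 / 2) (A : ℕ) (K : ℕ → ℝ) : ∃ C : ℝ, ∀ x : ℝ, 2 ≤ x →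
    ∀ a : ℕ → ℤ, ∀ M N : ℝ,
    x ^ (1 / 3 : ℝ) / 4 ≤ N → N ≤ 4 * x ^ (1 / 2 : ℝ) → x / 4 ≤ M * N → M * N ≤ 4 * x →
    ∀ α β : ℕ → ℝ,
      (∀ m, α m ≠ 0 → M < (m : ℝ) ∧ (m : ℝ) ≤ 4 * M) →
      (∀ n, β n ≠ 0 → N < (n : ℝ) ∧ (n : ℝ) ≤ 4 * N) →
      (∀ m, |α m| ≤ Real.log x) → (∀ n, |β n| ≤ Real.log x) →
      Pool.Agent.BGG.SW K x N β →
      ∑ q ∈ Icc 1 ⌊x ^ θ⌋₊, (if IsCoprime (a q) (q : ℤ) then
        |Dsc2 ⌊4 * M⌋₊ ⌊4 * N⌋₊ α β q (a q)| else 0) ≤ C * x / (Real.log x) ^ A := by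
  obtain ⟨B, C0, hC0, H⟩ := bv_main A 4 (fun j => |K j|) (fun j => abs_nonneg _)
  -- eventually
  have hev : ∀ᶠ x : ℝ in atTop, 3 ≤ Real.log x ∧ (Real.log x) ^ B ≤ x ^ (1 / 3 : ℝ) / 4 ∧
      (Real.log x) ^ B ≤ x ^ (1 / 2 : ℝ) / 16 ∧
      x ^ θ * (Real.log x) ^ B ≤ x ^ (1 / 2 : ℝ) / 2 := by
    have hlog : Tendsto Real.log atTop atTop := Real.tendsto_log_atTop
    have key : ∀ e : ℝ, 0 < e → ∀ c : ℝ, 0 < c → ∀ᶠ x : ℝ in atTop,
        (Real.log x) ^ B ≤ c * x ^ e := by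
      intro e he c hc
      have h1 := isLittleO_log_rpow_rpow_atTop (B : ℝ) he
      have h2 := h1.def hc
      filter_upwards [h2, Filter.eventually_ge_atTop 1] with x hx hx1
      have hlx : 0 ≤ Real.log x := Real.log_nonneg hx1
      rw [Real.norm_eq_abs, Real.norm_eq_abs, Real.rpow_natCast,
        abs_of_nonneg (by positivity), abs_of_nonneg (by positivity)] at hx
      exact hx
    have e1 := hlog.eventually (Filter.eventually_ge_atTop 3)
    have e2 := key (1 / 3) (by norm_num) (1 / 4) (by norm_num)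
    have e3 := key (1 / 2) (by norm_num) (1 / 16) (by norm_num)
    have e4 := key (1 / 2 - θ) (by linarith) (1 / 2) (by norm_num)
    filter_upwards [e1, e2, e3, e4, Filter.eventually_ge_atTop 1] with x h1 h2 h3 h4 h5
    refine ⟨h1, by linarith, by linarith, ?_⟩
    have hx0 : 0 < x := by linarith
    calc x ^ θ * (Real.log x) ^ B ≤ x ^ θ * (1 / 2 * x ^ (1 / 2 - θ)) :=
          mul_le_mul_of_nonneg_left h4 (by positivity)
      _ = x ^ (1 / 2 : ℝ) / 2 := by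
          rw [show x ^ θ * (1 / 2 * x ^ (1 / 2 - θ)) = (x ^ θ * x ^ (1 / 2 - θ)) / 2 by ring,
            ← Real.rpow_add hx0]
          congr 2
          ring
  obtain ⟨x0, hx0⟩ := Filter.eventually_atTop.mp hev
  -- the constant for small x
  set x1 : ℝ := max x0 2 with hx1
  refine ⟨4 * C0 + (x1 + 1) * (2 * (x1 * 256 * x1 * (Real.log x1) ^ 2)) *
    (Real.log x1) ^ A, ?_⟩
  intro x hx a M N hN1 hN2 hMN1 hMN2 α β hαs hβs hα hβ hSW
  have hx0' : 0 < x := by linarith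
  have hlogx : 0 < Real.log x := Real.log_pos (by linarith)
  have hN0 : 0 < N := lt_of_lt_of_le (by positivity) hN1
  have hM0 : 0 < M := by
    by_contra h
    push Not at h
    have : M * N ≤ 0 := mul_nonpos_of_nonpos_of_nonneg h hN0.le
    linarith
  have hx1pos : 2 ≤ x1 := le_max_right _ _
  have hlogx1 : 0 < Real.log x1 := Real.log_pos (by linarith)
  have hCpos : 0 ≤ (x1 + 1) * (2 * (x1 * 256 * x1 * (Real.log x1) ^ 2)) * (Real.log x1) ^ A := by
    positivity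
  by_cases hxx : x0 ≤ x
  · obtain ⟨g1, g2, g3, g4⟩ := hx0 x hxx
    obtain ⟨c, hc1, hc2⟩ := BilBV_class a
    have hM : (Real.log x) ^ B ≤ M := by
      have h1 : x ^ (1 / 2 : ℝ) / 16 ≤ M := by
        have h2 : x / 4 ≤ M * (4 * x ^ (1 / 2 : ℝ)) :=
          hMN1.trans (mul_le_mul_of_nonneg_left hN2 hM0.le)
        have h3 : x = x ^ (1 / 2 : ℝ) * x ^ (1 / 2 : ℝ) := by
          rw [← Real.rpow_add hx0']; norm_num
        have h4 : 0 < x ^ (1 / 2 : ℝ) := by positivity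
        by_contra h5
        push Not at h5
        have : M * (4 * x ^ (1 / 2 : ℝ)) < x ^ (1 / 2 : ℝ) / 16 * (4 * x ^ (1 / 2 : ℝ)) :=
          mul_lt_mul_of_pos_right h5 (by positivity)
        have h6 : x ^ (1 / 2 : ℝ) / 16 * (4 * x ^ (1 / 2 : ℝ)) = x / 4 := by
          nlinarith
        linarith
      linarith
    have hsq : x ^ (1 / 2 : ℝ) / 2 ≤ Real.sqrt (M * N) := by
      apply Real.le_sqrt_of_sq_le
      have h3 : x ^ (1 / 2 : ℝ) * x ^ (1 / 2 : ℝ) = x := by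
        rw [← Real.rpow_add hx0']; norm_num
      nlinarith
    have hfl : ((⌊x ^ θ⌋₊ : ℕ) : ℝ) ≤ x ^ θ := Nat.floor_le (by positivity)
    have hL2 : ∀ (f : ℕ → ℝ) (P : ℝ), 0 < P → (∀ n, |f n| ≤ Real.log x) →
        ∑ n ∈ Icc 1 ⌊4 * P⌋₊, ‖((f n : ℝ) : ℂ)‖ ^ 2 ≤ P * (Real.log x) ^ 4 := by
      intro f P hP hf
      calc ∑ n ∈ Icc 1 ⌊4 * P⌋₊, ‖((f n : ℝ) : ℂ)‖ ^ 2
          ≤ ∑ n ∈ Icc 1 ⌊4 * P⌋₊, (Real.log x) ^ 2 := by
            apply Finset.sum_le_sum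
            intro n _
            rw [Complex.norm_real, Real.norm_eq_abs]
            exact pow_le_pow_left₀ (abs_nonneg _) (hf n) 2
        _ = (⌊4 * P⌋₊ : ℝ) * (Real.log x) ^ 2 := by simp
        _ ≤ (4 * P) * (Real.log x) ^ 2 := by
            apply mul_le_mul_of_nonneg_right (Nat.floor_le (by positivity)) (by positivity)
        _ ≤ P * (Real.log x) ^ 4 := by
            have : (4 : ℝ) ≤ (Real.log x) ^ 2 := by nlinarith
            have h5 : 0 ≤ P * (Real.log x) ^ 2 := by positivity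
            nlinarith
    have := H (Real.log x) M N ⌊4 * M⌋₊ ⌊4 * N⌋₊ ⌊x ^ θ⌋₊ 1 (fun n => (α n : ℂ))
      (fun n => (β n : ℂ)) g1 le_rfl hM (g2.trans hN1) (by
        calc M * N ≤ 4 * x := hMN2
          _ ≤ x ^ 8 := by nlinarith [pow_le_pow_left₀ (by norm_num : (0:ℝ) ≤ 2) hx 7]
          _ = Real.exp (8 * Real.log x) := by
              rw [mul_comm, Real.exp_mul, Real.exp_log hx0']
              norm_cast)
      (Nat.floor_le (by positivity)) (Nat.floor_le (by positivity))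
      (by
        calc ((⌊x ^ θ⌋₊ : ℕ) : ℝ) * (Real.log x) ^ B ≤ x ^ θ * (Real.log x) ^ B :=
              mul_le_mul_of_nonneg_right hfl (by positivity)
          _ ≤ x ^ (1 / 2 : ℝ) / 2 := g4
          _ ≤ _ := hsq)
      (hL2 α M hM0 hα) (hL2 β N hN0 hβ) (BilBV_SW K x N β hN0.le hlogx.le hSW) c hc1
    have h1 : ∑ q ∈ Icc 1 ⌊x ^ θ⌋₊, (if IsCoprime (a q) (q : ℤ) then
        |Dsc2 ⌊4 * M⌋₊ ⌊4 * N⌋₊ α β q (a q)| else 0) ≤
        ∑ q ∈ Icc 1 ⌊x ^ θ⌋₊, ‖bdisc (fun n => (α n : ℂ)) (fun n => (β n : ℂ))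
          ⌊4 * M⌋₊ ⌊4 * N⌋₊ q (c q) 1‖ := by
      apply Finset.sum_le_sum
      intro q hq
      rw [mem_Icc] at hq
      split_ifs with h
      · rw [BilBV_disc α β _ _ q (c q) (a q) (hc2 q hq.1 h), Complex.norm_real, Real.norm_eq_abs]
      · exact norm_nonneg _
    refine h1.trans (this.trans ?_)
    have ht : tau 1 = 1 := by simp [tau]
    rw [ht, mul_one]
    apply div_le_div_of_nonneg_right _ (by positivity)
    calc C0 * (M * N) ≤ C0 * (4 * x) := mul_le_mul_of_nonneg_left hMN2 hC0.le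
      _ ≤ _ := by nlinarith
  · push Not at hxx
    have hxx1 : x ≤ x1 := hxx.le.trans (le_max_left _ _)
    have hlog1 : Real.log x ≤ Real.log x1 := Real.log_le_log hx0' hxx1
    have hcard : ((⌊x ^ θ⌋₊ : ℕ) : ℝ) ≤ x1 + 1 := by
      have h1 : x ^ θ ≤ x ^ (1 : ℝ) :=
        Real.rpow_le_rpow_of_exponent_le (by linarith) (by linarith)
      rw [Real.rpow_one] at h1
      have := Nat.floor_le (show 0 ≤ x ^ θ by positivity)
      linarith
    have hMN : (⌊4 * M⌋₊ : ℝ) * (⌊4 * N⌋₊ : ℝ) ≤ x1 * 256 * x1 := by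
      have h1 : (⌊4 * M⌋₊ : ℝ) ≤ 4 * M := Nat.floor_le (by positivity)
      have h2 : (⌊4 * N⌋₊ : ℝ) ≤ 4 * N := Nat.floor_le (by positivity)
      have h3 := mul_le_mul h1 h2 (Nat.cast_nonneg _) (by positivity)
      nlinarith
    have hq : ∀ q ∈ Icc 1 ⌊x ^ θ⌋₊, (if IsCoprime (a q) (q : ℤ) then
        |Dsc2 ⌊4 * M⌋₊ ⌊4 * N⌋₊ α β q (a q)| else 0) ≤
        2 * (x1 * 256 * x1 * (Real.log x1) ^ 2) := by
      intro q _
      have h0 : 0 ≤ 2 * (x1 * 256 * x1 * (Real.log x1) ^ 2) := by positivity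
      split_ifs
      · refine (BilBV_crude _ _ q (a q) α β (Real.log x) hlogx.le hα hβ).trans ?_
        have h5 : (Real.log x) ^ 2 ≤ (Real.log x1) ^ 2 := pow_le_pow_left₀ hlogx.le hlog1 2
        have h6 : (⌊4 * M⌋₊ : ℝ) * (⌊4 * N⌋₊ : ℝ) * (Real.log x) ^ 2 ≤
            x1 * 256 * x1 * (Real.log x1) ^ 2 := mul_le_mul hMN h5 (by positivity) (by positivity)
        linarith
      · exact h0
    calc _ ≤ ∑ q ∈ Icc 1 ⌊x ^ θ⌋₊, 2 * (x1 * 256 * x1 * (Real.log x1) ^ 2) :=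
          Finset.sum_le_sum hq
      _ = (⌊x ^ θ⌋₊ : ℝ) * (2 * (x1 * 256 * x1 * (Real.log x1) ^ 2)) := by simp
      _ ≤ (x1 + 1) * (2 * (x1 * 256 * x1 * (Real.log x1) ^ 2)) :=
          mul_le_mul_of_nonneg_right hcard (by positivity)
      _ ≤ _ := by
          rw [le_div_iff₀ (by positivity)]
          have h7 : (Real.log x) ^ A ≤ (Real.log x1) ^ A := pow_le_pow_left₀ hlogx.le hlog1 A
          set P : ℝ := (x1 + 1) * (2 * (x1 * 256 * x1 * (Real.log x1) ^ 2)) with hP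
          have hP0 : 0 ≤ P := by positivity
          have h8 : P * (Real.log x) ^ A ≤ P * (Real.log x1) ^ A :=
            mul_le_mul_of_nonneg_left h7 hP0
          have h9 : 0 ≤ P * (Real.log x1) ^ A := by positivity
          nlinarith

/-- `BIL D` for moduli below `x ^ theta`, `theta < 1/2`. -/
theorem bil_small (θ : ℝ) (hθ : θ < 1 / 2) (D : ℝ → Finset ℕ)
    (hD : ∀ x : ℝ, 2 ≤ x → ∀ q ∈ D x, 1 ≤ q ∧ (q : ℝ) ≤ x ^ θ) : BIL D := by
  intro A K
  obtain ⟨C, hC⟩ := bil_bv θ hθ A K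
  refine ⟨C, ?_⟩
  intro x hx a M N h1 h2 h3 h4 α β h5 h6 h7 h8 h9
  refine le_trans ?_ (hC x hx (fun _ => a) M N h1 h2 h3 h4 α β h5 h6 h7 h8 h9)
  apply Finset.sum_le_sum_of_subset_of_nonneg
  · intro q hq
    obtain ⟨g1, g2⟩ := hD x hx q hq
    rw [mem_Icc]
    exact ⟨g1, Nat.le_floor g2⟩
  · intro q _ _
    split_ifs
    · exact abs_nonneg _
    · exact le_rfl

end Pool.Agent.BV
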