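import Pool.Agent.BV.TauA

set_option autoImplicit false

/-! Divisor sums in short intervals and residue classes. -/

namespace Pool.Agent.BV

open Finset

theorem TauB_one_le (n : ℕ) (hn : n ≠ 0) : 1 ≤ tau n := by
  unfold tau
  have : 0 < n.divisors.card := Finset.card_pos.mpr ⟨1, Nat.one_mem_divisors.mpr hn⟩
  exact_mod_cast this

theorem TauB_nonneg (n : ℕ) : 0 ≤ tau n := by
  unfold tau; positivity

theorem TauB_prime (p : ℕ) (hp : p.Prime) : tau p = 2 := by
  unfold tau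
  rw [Nat.Prime.divisors hp, Finset.card_pair hp.one_lt.ne]
  norm_num

theorem TauB_list (l : List ℕ) (h : ∀ x ∈ l, x ≠ 0) : tau l.prod ≤ (l.map tau).prod := by
  induction l with
  | nil =>
    simp [tau]
  | cons a l ih =>
    rw [List.prod_cons, List.map_cons, List.prod_cons]
    have h1 : l.prod ≠ 0 := by
      rw [Ne, List.prod_eq_zero_iff]
      exact fun h0 => h 0 (by simp [h0]) rfl
    refine (tau_mul_le a l.prod (h a (by simp)) h1).trans ?_
    exact mul_le_mul_of_nonneg_left (ih fun x hx => h x (by simp [hx])) (TauB_nonneg a)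

theorem TauB_pairs (N m : ℕ) : ∀ (k : ℕ) (l : List ℕ), l.length ≤ k →
    l.Pairwise (fun a c => N + 1 ≤ (a * c) ^ m) → (∀ x ∈ l, x ≠ 0) →
    (N + 1) ^ (l.length / 2) ≤ l.prod ^ m := by
  intro k
  induction k using Nat.strong_induction_on with
  | _ k ih =>
    intro l hl hp h0
    match l, hl, hp, h0 with
    | [], _, _, _ => simp
    | [a], _, _, h0 =>
      have : 0 < a := Nat.pos_of_ne_zero (h0 a (by simp))
      simpa using Nat.one_le_pow m a this
    | a :: b :: t, hl, hp, h0 =>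
      have hk : t.length < k := by
        simp only [List.length_cons] at hl; omega
      have hpt : t.Pairwise (fun a c => N + 1 ≤ (a * c) ^ m) :=
        (List.pairwise_cons.mp (List.pairwise_cons.mp hp).2).2
      have := ih t.length hk t le_rfl hpt (fun x hx => h0 x (by simp [hx]))
      have hab : N + 1 ≤ (a * b) ^ m := (List.pairwise_cons.mp hp).1 b (by simp)
      have e : (a :: b :: t).length / 2 = t.length / 2 + 1 := by
        simp only [List.length_cons]; omega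
      rw [e, List.prod_cons, List.prod_cons, pow_succ, ← mul_assoc, mul_pow]
      calc (N + 1) ^ (t.length / 2) * (N + 1) ≤ t.prod ^ m * (a * b) ^ m :=
            Nat.mul_le_mul this hab
        _ = (a * b) ^ m * t.prod ^ m := by ring

theorem TauB_big (N m : ℕ) (l : List ℕ) (h : ∀ x ∈ l, N + 1 ≤ x ^ m) :
    (N + 1) ^ l.length ≤ l.prod ^ m := by
  induction l with
  | nil => simp
  | cons a l ih =>
    rw [List.length_cons, List.prod_cons, pow_succ, mul_pow, mul_comm]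
    exact Nat.mul_le_mul (h a (by simp)) (ih fun x hx => h x (by simp [hx]))

/-- Greedy decomposition. -/
theorem TauB_decomp (N m : ℕ) (k : ℕ) (hk : k ≠ 0) : ∃ P L : List ℕ,
    k = P.prod * L.prod ∧ (∀ p ∈ P, p.Prime ∧ N + 1 ≤ p ^ m) ∧ (∀ x ∈ L, x ^ m ≤ N ∧ x ≠ 0) ∧
    L.Pairwise (fun a c => N + 1 ≤ (a * c) ^ m) := by
  revert hk
  induction k using induction_on_primes with
  | zero => intro h; exact absurd rfl h
  | one => intro _; exact ⟨[], [], by simp, by simp, by simp, List.Pairwise.nil⟩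
  | prime_mul p a hp ih =>
    intro hpa
    have ha : a ≠ 0 := fun h => hpa (by rw [h, mul_zero])
    obtain ⟨P, L, h1, h2, h3, h4⟩ := ih ha
    by_cases hb : N + 1 ≤ p ^ m
    · refine ⟨p :: P, L, ?_, ?_, h3, h4⟩
      · rw [List.prod_cons, mul_assoc, ← h1]
      · intro x hx
        rcases List.mem_cons.mp hx with rfl | hx
        · exact ⟨hp, hb⟩
        · exact h2 x hx
    · have hpN : p ^ m ≤ N := by omega
      by_cases hB : ∃ B ∈ L, (p * B) ^ m ≤ N
      · obtain ⟨B, hBL, hBN⟩ := hB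
        have hperm : L.Perm (B :: L.erase B) := List.perm_cons_erase hBL
        have hsym : ∀ {x y : ℕ}, N + 1 ≤ (x * y) ^ m → N + 1 ≤ (y * x) ^ m := by
          intro x y h; rwa [mul_comm]
        have h4' := (hperm.pairwise_iff hsym).mp h4
        rw [List.pairwise_cons] at h4'
        refine ⟨P, (p * B) :: L.erase B, ?_, h2, ?_, ?_⟩
        · rw [List.prod_cons, h1, hperm.prod_eq, List.prod_cons]; ring
        · intro x hx
          rcases List.mem_cons.mp hx with rfl | hx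
          · exact ⟨hBN, Nat.mul_ne_zero hp.ne_zero (h3 B hBL).2⟩
          · exact h3 x (List.mem_of_mem_erase hx)
        · rw [List.pairwise_cons]
          refine ⟨fun x hx => ?_, h4'.2⟩
          refine (h4'.1 x hx).trans (Nat.pow_le_pow_left ?_ m)
          exact Nat.mul_le_mul_right x (Nat.le_mul_of_pos_left B hp.pos)
      · refine ⟨P, p :: L, ?_, h2, ?_, ?_⟩
        · rw [List.prod_cons, h1]; ring
        · intro x hx
          rcases List.mem_cons.mp hx with rfl | hx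
          · exact ⟨hpN, hp.ne_zero⟩
          · exact h3 x hx
        · rw [List.pairwise_cons]
          refine ⟨fun x hx => ?_, h4⟩
          by_contra hcon
          exact hB ⟨x, hx, by omega⟩

theorem TauB_list_le (l : List ℕ) (T : ℝ) (hT : 1 ≤ T) (h : ∀ x ∈ l, tau x ≤ T) :
    (l.map tau).prod ≤ T ^ l.length := by
  induction l with
  | nil => simp
  | cons a l ih =>
    rw [List.map_cons, List.prod_cons, List.length_cons, pow_succ, mul_comm]
    have h1 := ih fun x hx => h x (by simp [hx])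
    have h2 : 0 ≤ tau a := TauB_nonneg a
    have h3 : (0 : ℝ) ≤ T ^ l.length := by positivity
    exact mul_le_mul h1 (h a (by simp)) h2 h3

theorem TauB_max (l : List ℕ) (h0 : ∀ x ∈ l, x ≠ 0) (hl : l ≠ []) :
    ∃ d ∈ l, ∀ x ∈ l, tau x ≤ tau d := by
  induction l with
  | nil => exact absurd rfl hl
  | cons a l ih =>
    by_cases hl' : l = []
    · subst hl'
      exact ⟨a, by simp, by simp⟩
    · obtain ⟨d, hd, hmax⟩ := ih (fun x hx => h0 x (by simp [hx])) hl'
      by_cases hc : tau a ≤ tau d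
      · refine ⟨d, by simp [hd], fun x hx => ?_⟩
        rcases List.mem_cons.mp hx with rfl | hx
        · exact hc
        · exact hmax x hx
      · refine ⟨a, by simp, fun x hx => ?_⟩
        rcases List.mem_cons.mp hx with rfl | hx
        · exact le_rfl
        · exact (hmax x hx).trans (le_of_lt (not_le.mp hc))

/-- Let `y = n ^ (1/m)`. Write `n` as a product of primes with multiplicity; the primes `> y` are
fewer than `m` (or `n` is one, trivial); group the others greedily in blocks `B_1, ..., B_t` with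
products `<= y` and `B_i B_(i+1) > y`; then `t <= 2 m - 1`, hence
`tau n <= 2 ^ m * prod tau (B_i) <= 2 ^ m * max tau (B_i) ^ (2 m)`. (Any other proof is fine.) -/
theorem tau_le_small (m n : ℕ) (hm : 1 ≤ m) (hn : 1 ≤ n) :
    ∃ d : ℕ, d ∣ n ∧ d ^ m ≤ n ∧ tau n ≤ 2 ^ m * tau d ^ (2 * m) := by
  obtain ⟨P, L, h1, h2, h3, h4⟩ := TauB_decomp n m n (by omega)
  have hL0 : ∀ x ∈ L, x ≠ 0 := fun x hx => (h3 x hx).2
  have hP0 : ∀ x ∈ P, x ≠ 0 := fun x hx => (h2 x hx).1.ne_zero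
  have e1 := TauB_big n m P (fun x hx => (h2 x hx).2)
  have e2 := TauB_pairs n m L.length L le_rfl h4 hL0
  have e3 : (n + 1) ^ (P.length + L.length / 2) < (n + 1) ^ m := by
    calc (n + 1) ^ (P.length + L.length / 2) = (n + 1) ^ P.length * (n + 1) ^ (L.length / 2) :=
          pow_add _ _ _
      _ ≤ P.prod ^ m * L.prod ^ m := Nat.mul_le_mul e1 e2
      _ = n ^ m := by rw [← mul_pow, ← h1]
      _ < (n + 1) ^ m := Nat.pow_lt_pow_left (by omega) (by omega)
  have e4 : P.length + L.length / 2 < m := (Nat.pow_lt_pow_iff_right (by omega)).mp e3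
  have hPprod : P.prod ≠ 0 := by
    rw [Ne, List.prod_eq_zero_iff]; exact fun h0 => hP0 0 h0 rfl
  have hLprod : L.prod ≠ 0 := by
    rw [Ne, List.prod_eq_zero_iff]; exact fun h0 => hL0 0 h0 rfl
  have t1 : tau n ≤ tau P.prod * tau L.prod := by
    conv_lhs => rw [h1]
    exact tau_mul_le _ _ hPprod hLprod
  have t2 : tau P.prod ≤ 2 ^ m := by
    refine (TauB_list P hP0).trans ((TauB_list_le P 2 (by norm_num)
      (fun x hx => (TauB_prime x (h2 x hx).1).le)).trans ?_)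
    exact pow_le_pow_right₀ (by norm_num) (by omega)
  have key : ∀ d : ℕ, d ≠ 0 → (∀ x ∈ L, tau x ≤ tau d) →
      tau n ≤ 2 ^ m * tau d ^ (2 * m) := by
    intro d hd hmax
    have hd1 : 1 ≤ tau d := TauB_one_le d hd
    have t3 : tau L.prod ≤ tau d ^ (2 * m) := by
      refine (TauB_list L hL0).trans ((TauB_list_le L (tau d) hd1 hmax).trans ?_)
      exact pow_le_pow_right₀ hd1 (by omega)
    exact t1.trans (mul_le_mul t2 t3 (TauB_nonneg _) (by positivity))
  by_cases hL : L = []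
  · refine ⟨1, one_dvd n, by simpa using hn, key 1 one_ne_zero ?_⟩
    rw [hL]; simp
  · obtain ⟨d, hd, hmax⟩ := TauB_max L hL0 hL
    refine ⟨d, ?_, (h3 d hd).1, key d (hL0 d hd) hmax⟩
    rw [h1]
    exact Dvd.dvd.mul_left (List.dvd_prod hd) _

theorem TauB_count (X Y q c d : ℕ) (hXY : X ≤ Y) (hq : 1 ≤ q) (hd : 1 ≤ d) (hc : c.Coprime q) :
    (((Ioc X Y).filter (fun n => d ∣ n ∧ n ≡ c [MOD q])).card : ℝ) ≤
      ((Y : ℝ) - X) / (d * q) + 1 := by
  have hpos : (0 : ℝ) ≤ ((Y : ℝ) - X) / (d * q) := by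
    have : (X : ℝ) ≤ Y := by exact_mod_cast hXY
    apply div_nonneg (by linarith) (by positivity)
  by_cases hne : ((Ioc X Y).filter (fun n => d ∣ n ∧ n ≡ c [MOD q])).Nonempty
  · obtain ⟨n0, hn0⟩ := hne
    rw [Finset.mem_filter] at hn0
    obtain ⟨_, hd0, hc0⟩ := hn0
    have hcop : n0.Coprime q := by
      have := Nat.ModEq.gcd_eq hc0
      unfold Nat.Coprime at *
      rw [this]; exact hc
    have hdq : d.Coprime q := Nat.Coprime.coprime_dvd_left hd0 hcop
    have hsub : (Ioc X Y).filter (fun n => d ∣ n ∧ n ≡ c [MOD q]) ⊆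
        (Ioc X Y).filter (fun n => n ≡ n0 [MOD d * q]) := by
      intro n hn
      rw [Finset.mem_filter] at hn ⊢
      refine ⟨hn.1, ?_⟩
      rw [← Nat.modEq_and_modEq_iff_modEq_mul hdq]
      refine ⟨?_, hn.2.2.trans hc0.symm⟩
      exact ((Nat.modEq_zero_iff_dvd).mpr hn.2.1).trans ((Nat.modEq_zero_iff_dvd).mpr hd0).symm
    have hcard := Finset.card_le_card hsub
    have hr : 0 < d * q := Nat.mul_pos hd hq
    have hform := Nat.Ioc_filter_modEq_card X Y hr n0
    have hcard' : ((((Ioc X Y).filter (fun n => n ≡ n0 [MOD d * q])).card : ℤ) : ℝ) ≤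
        ((Y : ℝ) - X) / (d * q) + 1 := by
      rw [hform]
      rcases max_cases (⌊((Y : ℚ) - n0) / ((d * q : ℕ) : ℚ)⌋ - ⌊((X : ℚ) - n0) / ((d * q : ℕ) : ℚ)⌋) 0
        with ⟨h, _⟩ | ⟨h, _⟩
      · rw [h]
        have f1 : (⌊((Y : ℚ) - n0) / ((d * q : ℕ) : ℚ)⌋ : ℚ) ≤ ((Y : ℚ) - n0) / ((d * q : ℕ) : ℚ) :=
          Int.floor_le _
        have f2 : ((X : ℚ) - n0) / ((d * q : ℕ) : ℚ) < ⌊((X : ℚ) - n0) / ((d * q : ℕ) : ℚ)⌋ + 1 :=
          Int.lt_floor_add_one _
        have f3 : ((⌊((Y : ℚ) - n0) / ((d * q : ℕ) : ℚ)⌋ -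
            ⌊((X : ℚ) - n0) / ((d * q : ℕ) : ℚ)⌋ : ℤ) : ℚ) ≤ ((Y : ℚ) - X) / ((d * q : ℕ) : ℚ) + 1 := by
          push_cast
          have : ((Y : ℚ) - n0) / ((d : ℚ) * q) - ((X : ℚ) - n0) / ((d : ℚ) * q) =
            ((Y : ℚ) - X) / ((d : ℚ) * q) := by rw [← sub_div]; congr 1; ring
          push_cast at f1 f2
          linarith
        have f4 : (((⌊((Y : ℚ) - n0) / ((d * q : ℕ) : ℚ)⌋ -
            ⌊((X : ℚ) - n0) / ((d * q : ℕ) : ℚ)⌋ : ℤ) : ℚ) : ℝ) ≤
            ((((Y : ℚ) - X) / ((d * q : ℕ) : ℚ) + 1 : ℚ) : ℝ) := by exact_mod_cast f3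
        push_cast at f4 ⊢
        exact f4
      · rw [h]
        push_cast
        linarith
    calc (((Ioc X Y).filter (fun n => d ∣ n ∧ n ≡ c [MOD q])).card : ℝ)
        ≤ (((Ioc X Y).filter (fun n => n ≡ n0 [MOD d * q])).card : ℝ) := by exact_mod_cast hcard
      _ ≤ _ := by exact_mod_cast hcard'
  · rw [Finset.not_nonempty_iff_eq_empty] at hne
    rw [hne, Finset.card_empty]
    push_cast
    linarith

/-- By `tau_le_small` the sum is at most
`2 ^ (m k) * sum over d <= Y^(1/m), (d,q) = 1, of tau d ^ (2 m k) * #{n in (X,Y] : d | n, n = c mod q}`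
and the count is at most `(Y-X)/(d q) + 1`; then `tau_pow_sum_div` and `tau_pow_sum`.
(If `(d,q) > 1` there is no such `n`, since `(c,q) = 1`.) -/
theorem tau_ap (k m : ℕ) (hm : 1 ≤ m) : ∃ K : ℕ, ∀ X Y q c : ℕ, X ≤ Y → 1 ≤ Y → 1 ≤ q →
    c.Coprime q →
    ∑ n ∈ Ioc X Y, (if n ≡ c [MOD q] then tau n ^ k else 0) ≤
      K * (1 + Real.log Y) ^ K * (((Y : ℝ) - X) / q + (Y : ℝ) ^ (1 / (m : ℝ))) := by
  refine ⟨2 ^ (m * k) + 2 ^ (2 * m * k), fun X Y q c hXY hY hq hc => ?_⟩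
  set Z : ℕ := ⌊(Y : ℝ) ^ (1 / (m : ℝ))⌋₊ with hZ
  have hY1 : (1 : ℝ) ≤ Y := by exact_mod_cast hY
  have hm0 : (0 : ℝ) < m := by exact_mod_cast hm
  have hYm : (1 : ℝ) ≤ (Y : ℝ) ^ (1 / (m : ℝ)) := Real.one_le_rpow hY1 (by positivity)
  have hZle : (Z : ℝ) ≤ (Y : ℝ) ^ (1 / (m : ℝ)) := Nat.floor_le (by linarith)
  have hZ1 : 1 ≤ Z := by
    rw [hZ]; exact Nat.le_floor (by exact_mod_cast hYm)
  have hZY : (Z : ℝ) ≤ Y := by
    refine hZle.trans ?_
    calc (Y : ℝ) ^ (1 / (m : ℝ)) ≤ (Y : ℝ) ^ (1 : ℝ) := by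
          apply Real.rpow_le_rpow_of_exponent_le hY1
          rw [div_le_one hm0]; exact_mod_cast hm
      _ = Y := Real.rpow_one _
  have hlog0 : 0 ≤ Real.log Y := Real.log_nonneg hY1
  have hlogZ : Real.log Z ≤ Real.log Y := Real.log_le_log (by exact_mod_cast hZ1) hZY
  have hlogZ0 : 0 ≤ Real.log Z := Real.log_nonneg (by exact_mod_cast hZ1)
  -- pointwise bound
  have hpt : ∀ n ∈ Ioc X Y, (if n ≡ c [MOD q] then tau n ^ k else 0) ≤
      2 ^ (m * k) * ∑ d ∈ Icc 1 Z, (if d ∣ n ∧ n ≡ c [MOD q] then tau d ^ (2 * m * k) else 0) := by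
    intro n hn
    rw [Finset.mem_Ioc] at hn
    have hsum0 : 0 ≤ ∑ d ∈ Icc 1 Z,
        (if d ∣ n ∧ n ≡ c [MOD q] then tau d ^ (2 * m * k) else 0) := by
      apply Finset.sum_nonneg
      intro d _
      split_ifs
      · exact pow_nonneg (TauB_nonneg d) _
      · exact le_rfl
    by_cases hcl : n ≡ c [MOD q]
    · rw [if_pos hcl]
      obtain ⟨d, hdn, hdm, hle⟩ := tau_le_small m n hm (by omega)
      have hd0 : d ≠ 0 := fun h => by
        rw [h, zero_dvd_iff] at hdn; omega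
      have hdZ : d ∈ Icc 1 Z := by
        rw [Finset.mem_Icc]
        refine ⟨by omega, ?_⟩
        rw [hZ]
        apply Nat.le_floor
        have h1 : ((d : ℝ) ^ m) ≤ Y := by
          have : d ^ m ≤ Y := hdm.trans hn.2
          exact_mod_cast this
        calc (d : ℝ) = ((d : ℝ) ^ m) ^ (1 / (m : ℝ)) := by
              rw [← Real.rpow_natCast, ← Real.rpow_mul (by positivity), mul_one_div_cancel hm0.ne',
                Real.rpow_one]
          _ ≤ (Y : ℝ) ^ (1 / (m : ℝ)) := Real.rpow_le_rpow (by positivity) h1 (by positivity)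
      have h2 : tau n ^ k ≤ 2 ^ (m * k) * tau d ^ (2 * m * k) := by
        calc tau n ^ k ≤ (2 ^ m * tau d ^ (2 * m)) ^ k :=
              pow_le_pow_left₀ (TauB_nonneg n) hle k
          _ = 2 ^ (m * k) * tau d ^ (2 * m * k) := by rw [mul_pow, ← pow_mul, ← pow_mul]
      refine h2.trans (mul_le_mul_of_nonneg_left ?_ (by positivity))
      have := Finset.single_le_sum (s := Icc 1 Z)
        (f := fun d => (if d ∣ n ∧ n ≡ c [MOD q] then tau d ^ (2 * m * k) else 0)) (by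
          intro e _
          show 0 ≤ (if e ∣ n ∧ n ≡ c [MOD q] then tau e ^ (2 * m * k) else 0)
          split_ifs
          · exact pow_nonneg (TauB_nonneg e) _
          · exact le_rfl) hdZ
      simpa [hdn, hcl] using this
    · rw [if_neg hcl]
      positivity
  have hS1 : ∑ n ∈ Ioc X Y, (if n ≡ c [MOD q] then tau n ^ k else 0) ≤
      2 ^ (m * k) * ∑ d ∈ Icc 1 Z, tau d ^ (2 * m * k) *
        (((Ioc X Y).filter (fun n => d ∣ n ∧ n ≡ c [MOD q])).card : ℝ) := by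
    refine (Finset.sum_le_sum hpt).trans (le_of_eq ?_)
    rw [← Finset.mul_sum, Finset.sum_comm]
    congr 1
    refine Finset.sum_congr rfl fun d _ => ?_
    rw [← Finset.sum_filter, Finset.sum_const, nsmul_eq_mul, mul_comm]
  have hS2 : ∑ d ∈ Icc 1 Z, tau d ^ (2 * m * k) *
        (((Ioc X Y).filter (fun n => d ∣ n ∧ n ≡ c [MOD q])).card : ℝ) ≤
      ((Y : ℝ) - X) / q * (1 + Real.log Y) ^ (2 ^ (2 * m * k)) +
        (Y : ℝ) ^ (1 / (m : ℝ)) * (1 + Real.log Y) ^ (2 ^ (2 * m * k)) := by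
    have hstep : ∀ d ∈ Icc 1 Z, tau d ^ (2 * m * k) *
        (((Ioc X Y).filter (fun n => d ∣ n ∧ n ≡ c [MOD q])).card : ℝ) ≤
        ((Y : ℝ) - X) / q * (tau d ^ (2 * m * k) / (d : ℝ)) + tau d ^ (2 * m * k) := by
      intro d hd
      rw [Finset.mem_Icc] at hd
      have hcnt := TauB_count X Y q c d hXY hq hd.1 hc
      have h0 : 0 ≤ tau d ^ (2 * m * k) := pow_nonneg (TauB_nonneg d) _
      have hd0 : (0 : ℝ) < d := by exact_mod_cast hd.1
      have hq0 : (0 : ℝ) < q := by exact_mod_cast hq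
      calc _ ≤ tau d ^ (2 * m * k) * (((Y : ℝ) - X) / (d * q) + 1) :=
            mul_le_mul_of_nonneg_left hcnt h0
        _ = _ := by field_simp
    refine (Finset.sum_le_sum hstep).trans ?_
    rw [Finset.sum_add_distrib, ← Finset.mul_sum]
    have hYX : 0 ≤ ((Y : ℝ) - X) / q := by
      have : (X : ℝ) ≤ Y := by exact_mod_cast hXY
      exact div_nonneg (by linarith) (by positivity)
    have hpow : (1 + Real.log Z) ^ (2 ^ (2 * m * k)) ≤ (1 + Real.log Y) ^ (2 ^ (2 * m * k)) :=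
      pow_le_pow_left₀ (by linarith) (by linarith) _
    have a1 := (tau_pow_sum_div (2 * m * k) Z).trans hpow
    have a2 := tau_pow_sum (2 * m * k) Z
    have a3 : (Z : ℝ) * (1 + Real.log Z) ^ (2 ^ (2 * m * k)) ≤
        (Y : ℝ) ^ (1 / (m : ℝ)) * (1 + Real.log Y) ^ (2 ^ (2 * m * k)) :=
      mul_le_mul hZle hpow (pow_nonneg (by linarith) _) (by linarith)
    exact add_le_add (mul_le_mul_of_nonneg_left a1 hYX) (a2.trans a3)
  have hYX : 0 ≤ ((Y : ℝ) - X) / q := by
    have : (X : ℝ) ≤ Y := by exact_mod_cast hXY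
    exact div_nonneg (by linarith) (by positivity)
  have hE : 0 ≤ ((Y : ℝ) - X) / q + (Y : ℝ) ^ (1 / (m : ℝ)) := by linarith
  have hK1 : (1 + Real.log Y) ^ (2 ^ (2 * m * k)) ≤
      (1 + Real.log Y) ^ (2 ^ (m * k) + 2 ^ (2 * m * k)) :=
    pow_le_pow_right₀ (by linarith) (Nat.le_add_left _ _)
  have hK2 : (2 : ℝ) ^ (m * k) ≤ ((2 ^ (m * k) + 2 ^ (2 * m * k) : ℕ) : ℝ) := by
    push_cast
    have : (0 : ℝ) ≤ 2 ^ (2 * m * k) := by positivity
    linarith
  calc ∑ n ∈ Ioc X Y, (if n ≡ c [MOD q] then tau n ^ k else 0)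
      ≤ 2 ^ (m * k) * (((Y : ℝ) - X) / q * (1 + Real.log Y) ^ (2 ^ (2 * m * k)) +
        (Y : ℝ) ^ (1 / (m : ℝ)) * (1 + Real.log Y) ^ (2 ^ (2 * m * k))) :=
        hS1.trans (mul_le_mul_of_nonneg_left hS2 (by positivity))
    _ = 2 ^ (m * k) * (1 + Real.log Y) ^ (2 ^ (2 * m * k)) *
        (((Y : ℝ) - X) / q + (Y : ℝ) ^ (1 / (m : ℝ))) := by ring
    _ ≤ _ := by
        refine mul_le_mul_of_nonneg_right ?_ hE
        exact mul_le_mul hK2 hK1 (pow_nonneg (by linarith) _) (by positivity)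

/-- The case `q = 1` of `tau_ap`. -/
theorem tau_short (k m : ℕ) (hm : 1 ≤ m) : ∃ K : ℕ, ∀ X Y : ℕ, X ≤ Y → 1 ≤ Y →
    ∑ n ∈ Ioc X Y, tau n ^ k ≤
      K * (1 + Real.log Y) ^ K * (((Y : ℝ) - X) + (Y : ℝ) ^ (1 / (m : ℝ))) := by
  obtain ⟨K, hK⟩ := tau_ap k m hm
  refine ⟨K, fun X Y hXY hY => ?_⟩
  have := hK X Y 1 1 hXY hY le_rfl (by simp)
  simpa [Nat.modEq_one] using this

end Pool.Agent.BV
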