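import Pool.Agent.BV.BilBV

set_option autoImplicit false

/-!
# The bilinear estimate for `q <= x ^ theta`, general coefficients and ranges

`|alpha m| <= (tau m log x)^c`, `|beta n| <= (tau n log x)^c`, `M, N >= x^nu / 16`.
-/

namespace Pool.Agent.BV

open Finset Filter Topology
open scoped Classical
open Pool.Agent.BGG

private theorem BilGen_disc (α β : ℕ → ℝ) (X Y q c : ℕ) (a : ℤ) (h : (q : ℤ) ∣ (c : ℤ) - a) :
    bdisc (fun n => (α n : ℂ)) (fun n => (β n : ℂ)) X Y q c 1 = ((Dsc2 X Y α β q a : ℝ) : ℂ) := by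
  have h1 : ∀ m n : ℕ, (m * n ≡ c [MOD q] ∧ (m * n).Coprime 1) ↔
      (q : ℤ) ∣ ((m * n : ℕ) : ℤ) - a := by
    intro m n
    rw [and_iff_left (Nat.coprime_one_right _)]
    rw [Nat.modEq_iff_dvd]
    constructor
    · intro h2
      have : ((m * n : ℕ) : ℤ) - a = ((c : ℤ) - a) - ((c : ℤ) - ((m * n : ℕ) : ℤ)) := by ring
      rw [this]
      exact dvd_sub h h2
    · intro h2
      have : (c : ℤ) - ((m * n : ℕ) : ℤ) = ((c : ℤ) - a) - (((m * n : ℕ) : ℤ) - a) := by ring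
      rw [this]
      exact dvd_sub h h2
  unfold bdisc bcls bcop Dsc2
  rw [mul_one]
  push_cast
  congr 1
  · apply Finset.sum_congr rfl
    intro m _
    apply Finset.sum_congr rfl
    intro n _
    by_cases h2 : (q : ℤ) ∣ ((m * n : ℕ) : ℤ) - a
    · rw [if_pos ((h1 m n).mpr h2)]
      push_cast at h2
      rw [if_pos h2]
      push_cast
      ring
    · rw [if_neg (fun h3 => h2 ((h1 m n).mp h3))]
      push_cast at h2
      rw [if_neg h2]
      simp
  · congr 1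
    apply Finset.sum_congr rfl
    intro m _
    apply Finset.sum_congr rfl
    intro n _
    split_ifs <;> simp

private theorem BilGen_SW (K : ℕ → ℝ) (x N : ℝ) (β : ℕ → ℝ) (hN : 0 ≤ N) (hL : 0 ≤ Real.log x)
    (h : Pool.Agent.BGG.SW K x N β) :
    SWc (fun j => |K j|) (Real.log x) N (fun n => (β n : ℂ)) ⌊4 * N⌋₊ := by
  intro j r s b hr hs hb
  have h0 := h j r s (b : ℤ) hr hs (Nat.isCoprime_iff_coprime.mpr hb)
  have h1 : ∀ n : ℕ, (n ≡ b [MOD r]) ↔ (r : ℤ) ∣ (n : ℤ) - (b : ℤ) := by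
    intro n
    rw [Nat.modEq_iff_dvd, dvd_sub_comm]
  have h2 : (∑ n ∈ Icc 1 ⌊4 * N⌋₊, if n ≡ b [MOD r] ∧ n.Coprime s then ((β n : ℝ) : ℂ) else 0) -
      (∑ n ∈ Icc 1 ⌊4 * N⌋₊, if n.Coprime (r * s) then ((β n : ℝ) : ℂ) else 0) /
        (r.totient : ℂ) =
      (((∑ n ∈ Icc 1 ⌊4 * N⌋₊, if (r : ℤ) ∣ (n : ℤ) - b ∧ Nat.Coprime n s then β n else 0)
      - (∑ n ∈ Icc 1 ⌊4 * N⌋₊, if Nat.Coprime n (r * s) then β n else 0) / (r.totient : ℝ) : ℝ) :
        ℂ) := by
    push_cast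
    congr 1
    · apply Finset.sum_congr rfl
      intro n _
      by_cases h3 : (r : ℤ) ∣ (n : ℤ) - (b : ℤ) ∧ Nat.Coprime n s
      · rw [if_pos (⟨(h1 n).mpr h3.1, h3.2⟩ : n ≡ b [MOD r] ∧ n.Coprime s), if_pos h3]
      · rw [if_neg (fun h4 : n ≡ b [MOD r] ∧ n.Coprime s => h3 ⟨(h1 n).mp h4.1, h4.2⟩), if_neg h3]
        simp
    · congr 1
      apply Finset.sum_congr rfl
      intro n _
      split_ifs <;> simp
  rw [h2, Complex.norm_real, Real.norm_eq_abs]
  refine h0.trans ?_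
  have ht : (s.divisors.card : ℝ) = tau s := rfl
  rw [ht]
  have hts : 0 ≤ tau s := Nat.cast_nonneg _
  have hpos : 0 ≤ tau s * N / (Real.log x) ^ j := by positivity
  calc K j * tau s * N / (Real.log x) ^ j = K j * (tau s * N / (Real.log x) ^ j) := by ring
    _ ≤ |K j| * (tau s * N / (Real.log x) ^ j) := mul_le_mul_of_nonneg_right (le_abs_self _) hpos
    _ = _ := by ring

private theorem BilGen_crude (X Y q : ℕ) (a : ℤ) (α β : ℕ → ℝ) (T : ℝ) (hT : 0 ≤ T)
    (hα : ∀ m ∈ Icc 1 X, |α m| ≤ T) (hβ : ∀ n ∈ Icc 1 Y, |β n| ≤ T) :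
    |Dsc2 X Y α β q a| ≤ 2 * (X * Y * T ^ 2) := by
  have hterm : ∀ m ∈ Icc 1 X, ∀ n ∈ Icc 1 Y, |α m * β n| ≤ T ^ 2 := by
    intro m hm n hn
    rw [abs_mul, sq]
    exact mul_le_mul (hα m hm) (hβ n hn) (abs_nonneg _) hT
  have hsum : ∀ (P : ℕ → ℕ → Prop) [∀ m n, Decidable (P m n)],
      |∑ m ∈ Icc 1 X, ∑ n ∈ Icc 1 Y, if P m n then α m * β n else 0| ≤ X * Y * T ^ 2 := by
    intro P _
    refine (Finset.abs_sum_le_sum_abs _ _).trans ?_
    have : ∀ m ∈ Icc 1 X, |∑ n ∈ Icc 1 Y, if P m n then α m * β n else 0| ≤ Y * T ^ 2 := by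
      intro m hm
      refine (Finset.abs_sum_le_sum_abs _ _).trans ?_
      calc ∑ n ∈ Icc 1 Y, |if P m n then α m * β n else 0| ≤ ∑ n ∈ Icc 1 Y, T ^ 2 := by
            apply Finset.sum_le_sum
            intro n hn
            split_ifs
            · exact hterm m hm n hn
            · rw [abs_zero]; positivity
        _ = Y * T ^ 2 := by simp
    calc _ ≤ ∑ m ∈ Icc 1 X, (Y : ℝ) * T ^ 2 := Finset.sum_le_sum this
      _ = X * Y * T ^ 2 := by simp; ring
  unfold Dsc2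
  refine (abs_sub _ _).trans ?_
  have h1 := hsum (fun m n => (q : ℤ) ∣ ((m * n : ℕ) : ℤ) - a)
  have h2 := hsum (fun m n => Nat.Coprime (m * n) q)
  have h3 : |(∑ m ∈ Icc 1 X, ∑ n ∈ Icc 1 Y, if Nat.Coprime (m * n) q then α m * β n else 0) /
      (q.totient : ℝ)| ≤ X * Y * T ^ 2 := by
    rw [abs_div]
    rcases Nat.eq_zero_or_pos q.totient with h | h
    · rw [h]; simp; positivity
    · have h4 : (1 : ℝ) ≤ |(q.totient : ℝ)| := by
        rw [abs_of_nonneg (Nat.cast_nonneg _)]; exact_mod_cast h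
      exact (div_le_self (abs_nonneg _) h4).trans h2
  linarith

private theorem BilGen_class (a : ℕ → ℤ) : ∃ c : ℕ → ℕ, (∀ q, (c q).Coprime q) ∧
    ∀ q, 1 ≤ q → IsCoprime (a q) (q : ℤ) → (q : ℤ) ∣ (c q : ℤ) - a q := by
  refine ⟨fun q => if IsCoprime (a q) (q : ℤ) ∧ 1 ≤ q then (a q % q).toNat else 1, ?_, ?_⟩
  · intro q
    dsimp only
    split_ifs with h
    · have hq : (0 : ℤ) < q := by exact_mod_cast h.2
      have hnn : 0 ≤ a q % q := Int.emod_nonneg _ hq.ne'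
      rw [← Nat.isCoprime_iff_coprime, Int.toNat_of_nonneg hnn]
      have h2 : IsCoprime (a q - q * (a q / q)) (q : ℤ) := by
        have := h.1.add_mul_left_left (-(a q / q))
        rw [show a q - (q : ℤ) * (a q / q) = a q + (q : ℤ) * (-(a q / q)) by ring]
        exact this
      rwa [Int.emod_def]
    · exact Nat.coprime_one_left q
  · intro q hq h
    dsimp only
    rw [if_pos ⟨h, hq⟩]
    have hq' : (0 : ℤ) < q := by exact_mod_cast hq
    have hnn : 0 ≤ a q % q := Int.emod_nonneg _ hq'.ne'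
    rw [Int.toNat_of_nonneg hnn, Int.emod_def]
    exact ⟨-(a q / q), by ring⟩

private theorem BilGen_tau_one_le (n : ℕ) (hn : 1 ≤ n) : 1 ≤ tau n := by
  unfold tau
  have : 0 < n.divisors.card := Finset.card_pos.mpr (Nat.nonempty_divisors.mpr (by omega))
  exact_mod_cast this

private theorem BilGen_tau_le (n : ℕ) : tau n ≤ n := by
  unfold tau
  exact_mod_cast Nat.card_divisors_le_self n

/-- The bilinear estimate for all moduli `q <= x ^ theta`, `theta < 1/2`, with classes depending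
on the modulus, coefficients bounded by `(tau log x)^c`, and `M, N >= x^nu / 16`. -/
theorem bil_bv_gen (θ ν : ℝ) (hθ : θ < 1 / 2) (hν : 0 < ν) (A c : ℕ) (K : ℕ → ℝ) :
    ∃ C : ℝ, ∀ x : ℝ, 2 ≤ x → ∀ a : ℕ → ℤ, ∀ M N : ℝ,
    x ^ ν / 16 ≤ N → x ^ ν / 16 ≤ M → x / 16 ≤ M * N → M * N ≤ 16 * x →
    ∀ α β : ℕ → ℝ,
      (∀ m, 1 ≤ m → |α m| ≤ (tau m * Real.log x) ^ c) →
      (∀ n, 1 ≤ n → |β n| ≤ (tau n * Real.log x) ^ c) →
      Pool.Agent.BGG.SW K x N β →
      ∑ q ∈ Icc 1 ⌊x ^ θ⌋₊, (if IsCoprime (a q) (q : ℤ) then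
        |Dsc2 ⌊4 * M⌋₊ ⌊4 * N⌋₊ α β q (a q)| else 0) ≤ C * x / (Real.log x) ^ A := by
  -- exponent for the second moments
  set E : ℕ := 2 ^ (2 * c) with hE
  set C1 : ℕ := 2 * c + 4 * E + 2 with hC1
  obtain ⟨B, C0, hC0, H⟩ := bv_main A C1 (fun j => |K j|) (fun j => abs_nonneg _)
  have hev : ∀ᶠ x : ℝ in atTop, 3 ≤ Real.log x ∧ (Real.log x) ^ B ≤ x ^ ν / 16 ∧
      x ^ θ * (Real.log x) ^ B ≤ x ^ (1 / 2 : ℝ) / 4 := by
    have hlog : Tendsto Real.log atTop atTop := Real.tendsto_log_atTop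
    have key : ∀ e : ℝ, 0 < e → ∀ c : ℝ, 0 < c → ∀ᶠ x : ℝ in atTop,
        (Real.log x) ^ B ≤ c * x ^ e := by
      intro e he c hc
      have h1 := isLittleO_log_rpow_rpow_atTop (B : ℝ) he
      have h2 := h1.def hc
      filter_upwards [h2, Filter.eventually_ge_atTop 1] with x hx hx1
      have hlx : 0 ≤ Real.log x := Real.log_nonneg hx1
      rw [Real.norm_eq_abs, Real.norm_eq_abs, Real.rpow_natCast,
        abs_of_nonneg (by positivity), abs_of_nonneg (by positivity)] at hx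
      exact hx
    have e1 := hlog.eventually (Filter.eventually_ge_atTop 3)
    have e2 := key ν hν (1 / 16) (by norm_num)
    have e4 := key (1 / 2 - θ) (by linarith) (1 / 4) (by norm_num)
    filter_upwards [e1, e2, e4, Filter.eventually_ge_atTop 1] with x h1 h2 h4 h5
    refine ⟨h1, by linarith, ?_⟩
    have hx0 : 0 < x := by linarith
    calc x ^ θ * (Real.log x) ^ B ≤ x ^ θ * (1 / 4 * x ^ (1 / 2 - θ)) :=
          mul_le_mul_of_nonneg_left h4 (by positivity)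
      _ = x ^ (1 / 2 : ℝ) / 4 := by
          rw [show x ^ θ * (1 / 4 * x ^ (1 / 2 - θ)) = (x ^ θ * x ^ (1 / 2 - θ)) / 4 by ring,
            ← Real.rpow_add hx0]
          congr 2
          ring
  obtain ⟨x0, hx0⟩ := Filter.eventually_atTop.mp hev
  set x1 : ℝ := max x0 2 with hx1
  set T1 : ℝ := (1024 * x1 * (1 + Real.log x1)) ^ c with hT1
  refine ⟨16 * C0 + (x1 + 1) * (2 * (x1 * 256 * T1 ^ 2)) * (Real.log x1) ^ A, ?_⟩
  intro x hx a M N hN1 hM1 hMN1 hMN2 α β hα hβ hSW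
  have hx0' : 0 < x := by linarith
  have hlogx : 0 < Real.log x := Real.log_pos (by linarith)
  have hN0 : 0 < N := lt_of_lt_of_le (by positivity) hN1
  have hM0 : 0 < M := lt_of_lt_of_le (by positivity) hM1
  have hx1pos : 2 ≤ x1 := le_max_right _ _
  have hlogx1 : 0 < Real.log x1 := Real.log_pos (by linarith)
  have hT10 : 0 ≤ T1 := by rw [hT1]; positivity
  have hCpos : 0 ≤ (x1 + 1) * (2 * (x1 * 256 * T1 ^ 2)) * (Real.log x1) ^ A := by
    positivity
  have hxν : 1 ≤ x ^ ν := Real.one_le_rpow (by linarith) hν.le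
  have hM16 : 1 / 16 ≤ M := by linarith
  have hN16 : 1 / 16 ≤ N := by linarith
  have hMle : M ≤ 256 * x := by nlinarith
  have hNle : N ≤ 256 * x := by nlinarith
  by_cases hxx : x0 ≤ x
  · obtain ⟨g1, g2, g4⟩ := hx0 x hxx
    obtain ⟨cc, hc1, hc2⟩ := BilGen_class a
    have hM : (Real.log x) ^ B ≤ M := g2.trans hM1
    have hN : (Real.log x) ^ B ≤ N := g2.trans hN1
    have hsq : x ^ (1 / 2 : ℝ) / 4 ≤ Real.sqrt (M * N) := by
      apply Real.le_sqrt_of_sq_le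
      have h3 : x ^ (1 / 2 : ℝ) * x ^ (1 / 2 : ℝ) = x := by
        rw [← Real.rpow_add hx0']; norm_num
      nlinarith
    have hfl : ((⌊x ^ θ⌋₊ : ℕ) : ℝ) ≤ x ^ θ := Nat.floor_le (by positivity)
    have hexp : 16 * x ≤ Real.exp (8 * Real.log x) := by
      have : x ^ 8 = Real.exp (8 * Real.log x) := by
        rw [mul_comm, Real.exp_mul, Real.exp_log hx0']
        norm_cast
      rw [← this]
      nlinarith [pow_le_pow_left₀ (by norm_num : (0:ℝ) ≤ 2) hx 7]
    have hL2 : ∀ (f : ℕ → ℝ) (P : ℝ), 0 < P → P ≤ 256 * x →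
        (∀ n, 1 ≤ n → |f n| ≤ (tau n * Real.log x) ^ c) →
        ∑ n ∈ Icc 1 ⌊4 * P⌋₊, ‖((f n : ℝ) : ℂ)‖ ^ 2 ≤ P * (Real.log x) ^ C1 := by
      intro f P hP hPx hf
      have hlogP : 1 + Real.log (⌊4 * P⌋₊ : ℕ) ≤ (Real.log x) ^ 3 := by
        rcases Nat.eq_zero_or_pos ⌊4 * P⌋₊ with h | h
        · rw [h, Nat.cast_zero, Real.log_zero, add_zero]
          exact one_le_pow₀ (by linarith)
        · have h1 : ((⌊4 * P⌋₊ : ℕ) : ℝ) ≤ 1024 * x := by
            have := Nat.floor_le (show 0 ≤ 4 * P by positivity)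
            linarith
          have h0 : (0 : ℝ) < (⌊4 * P⌋₊ : ℕ) := by exact_mod_cast h
          have h2 := Real.log_le_log h0 h1
          rw [Real.log_mul (by norm_num) hx0'.ne'] at h2
          have h3 : Real.log 1024 ≤ 7 := by
            rw [show (1024 : ℝ) = 2 ^ (10 : ℕ) by norm_num, Real.log_pow]
            have := Real.log_two_lt_d9
            norm_num
            linarith
          have h4 : (9 : ℝ) ≤ (Real.log x) ^ 2 := by nlinarith
          have h5 : 9 * Real.log x ≤ (Real.log x) ^ 3 := by nlinarith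
          linarith
      have hlogP0 : 0 ≤ 1 + Real.log (⌊4 * P⌋₊ : ℕ) := by
        have := Real.log_natCast_nonneg ⌊4 * P⌋₊
        linarith
      calc ∑ n ∈ Icc 1 ⌊4 * P⌋₊, ‖((f n : ℝ) : ℂ)‖ ^ 2
          ≤ ∑ n ∈ Icc 1 ⌊4 * P⌋₊, (Real.log x) ^ (2 * c) * tau n ^ (2 * c) := by
            apply Finset.sum_le_sum
            intro n hn
            rw [Complex.norm_real, Real.norm_eq_abs]
            have := pow_le_pow_left₀ (abs_nonneg _) (hf n (mem_Icc.mp hn).1) 2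
            calc |f n| ^ 2 ≤ ((tau n * Real.log x) ^ c) ^ 2 := this
              _ = _ := by rw [← pow_mul, mul_pow, mul_comm c 2]; ring
        _ = (Real.log x) ^ (2 * c) * ∑ n ∈ Icc 1 ⌊4 * P⌋₊, tau n ^ (2 * c) := by
            rw [Finset.mul_sum]
        _ ≤ (Real.log x) ^ (2 * c) *
            ((⌊4 * P⌋₊ : ℝ) * (1 + Real.log (⌊4 * P⌋₊ : ℕ)) ^ E) := by
            apply mul_le_mul_of_nonneg_left (tau_pow_sum (2 * c) _) (by positivity)
        _ ≤ (Real.log x) ^ (2 * c) * ((4 * P) * ((Real.log x) ^ 3) ^ E) := by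
            apply mul_le_mul_of_nonneg_left _ (by positivity)
            apply mul_le_mul (Nat.floor_le (by positivity)) _ (by positivity) (by positivity)
            exact pow_le_pow_left₀ hlogP0 hlogP E
        _ = P * (4 * (Real.log x) ^ (2 * c + 3 * E)) := by
            have h1 : ((Real.log x) ^ 3) ^ E = (Real.log x) ^ (3 * E) := (pow_mul _ _ _).symm
            rw [h1, pow_add]
            generalize (Real.log x) ^ (2 * c) = A1
            generalize (Real.log x) ^ (3 * E) = A2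
            ring
        _ ≤ P * (Real.log x) ^ C1 := by
            apply mul_le_mul_of_nonneg_left _ hP.le
            have h5 : (4 : ℝ) ≤ (Real.log x) ^ 2 := by nlinarith
            calc 4 * (Real.log x) ^ (2 * c + 3 * E)
                ≤ (Real.log x) ^ 2 * (Real.log x) ^ (2 * c + 3 * E) :=
                  mul_le_mul_of_nonneg_right h5 (by positivity)
              _ = (Real.log x) ^ (2 + (2 * c + 3 * E)) := (pow_add _ _ _).symm
              _ ≤ (Real.log x) ^ C1 := by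
                  apply pow_le_pow_right₀ (by linarith)
                  omega
    have := H (Real.log x) M N ⌊4 * M⌋₊ ⌊4 * N⌋₊ ⌊x ^ θ⌋₊ 1 (fun n => (α n : ℂ))
      (fun n => (β n : ℂ)) g1 le_rfl hM hN (hMN2.trans hexp)
      (Nat.floor_le (by positivity)) (Nat.floor_le (by positivity))
      (by
        calc ((⌊x ^ θ⌋₊ : ℕ) : ℝ) * (Real.log x) ^ B ≤ x ^ θ * (Real.log x) ^ B :=
              mul_le_mul_of_nonneg_right hfl (by positivity)
          _ ≤ x ^ (1 / 2 : ℝ) / 4 := g4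
          _ ≤ _ := hsq)
      (hL2 α M hM0 hMle hα) (hL2 β N hN0 hNle hβ) (BilGen_SW K x N β hN0.le hlogx.le hSW) cc hc1
    have h1 : ∑ q ∈ Icc 1 ⌊x ^ θ⌋₊, (if IsCoprime (a q) (q : ℤ) then
        |Dsc2 ⌊4 * M⌋₊ ⌊4 * N⌋₊ α β q (a q)| else 0) ≤
        ∑ q ∈ Icc 1 ⌊x ^ θ⌋₊, ‖bdisc (fun n => (α n : ℂ)) (fun n => (β n : ℂ))
          ⌊4 * M⌋₊ ⌊4 * N⌋₊ q (cc q) 1‖ := by
      apply Finset.sum_le_sum
      intro q hq
      rw [mem_Icc] at hq
      split_ifs with h
      · rw [BilGen_disc α β _ _ q (cc q) (a q) (hc2 q hq.1 h), Complex.norm_real,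
          Real.norm_eq_abs]
      · exact norm_nonneg _
    refine h1.trans (this.trans ?_)
    have ht : tau 1 = 1 := by simp [tau]
    rw [ht, mul_one]
    apply div_le_div_of_nonneg_right _ (by positivity)
    calc C0 * (M * N) ≤ C0 * (16 * x) := mul_le_mul_of_nonneg_left hMN2 hC0.le
      _ ≤ _ := by nlinarith
  · push Not at hxx
    have hxx1 : x ≤ x1 := hxx.le.trans (le_max_left _ _)
    have hlog1 : Real.log x ≤ Real.log x1 := Real.log_le_log hx0' hxx1
    have hcard : ((⌊x ^ θ⌋₊ : ℕ) : ℝ) ≤ x1 + 1 := by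
      have h1 : x ^ θ ≤ x ^ (1 : ℝ) :=
        Real.rpow_le_rpow_of_exponent_le (by linarith) (by linarith)
      rw [Real.rpow_one] at h1
      have := Nat.floor_le (show 0 ≤ x ^ θ by positivity)
      linarith
    have hMN : (⌊4 * M⌋₊ : ℝ) * (⌊4 * N⌋₊ : ℝ) ≤ x1 * 256 := by
      have h1 : (⌊4 * M⌋₊ : ℝ) ≤ 4 * M := Nat.floor_le (by positivity)
      have h2 : (⌊4 * N⌋₊ : ℝ) ≤ 4 * N := Nat.floor_le (by positivity)
      have h3 := mul_le_mul h1 h2 (Nat.cast_nonneg _) (by positivity)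
      nlinarith
    have hbd : ∀ (f : ℕ → ℝ) (P : ℝ), 0 < P → P ≤ 256 * x →
        (∀ n, 1 ≤ n → |f n| ≤ (tau n * Real.log x) ^ c) →
        ∀ n ∈ Icc 1 ⌊4 * P⌋₊, |f n| ≤ T1 := by
      intro f P hP hPx hf n hn
      rw [mem_Icc] at hn
      refine (hf n hn.1).trans ?_
      rw [hT1]
      apply pow_le_pow_left₀ (by have := BilGen_tau_one_le n hn.1; positivity)
      have h1 : (n : ℝ) ≤ 1024 * x1 := by
        have h2 : (n : ℝ) ≤ (⌊4 * P⌋₊ : ℕ) := by exact_mod_cast hn.2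
        have h3 := Nat.floor_le (show 0 ≤ 4 * P by positivity)
        linarith
      have h4 : tau n ≤ 1024 * x1 := (BilGen_tau_le n).trans h1
      exact mul_le_mul h4 (by linarith) hlogx.le (by positivity)
    have hq : ∀ q ∈ Icc 1 ⌊x ^ θ⌋₊, (if IsCoprime (a q) (q : ℤ) then
        |Dsc2 ⌊4 * M⌋₊ ⌊4 * N⌋₊ α β q (a q)| else 0) ≤ 2 * (x1 * 256 * T1 ^ 2) := by
      intro q _
      have h0 : 0 ≤ 2 * (x1 * 256 * T1 ^ 2) := by positivity
      split_ifs
      · refine (BilGen_crude _ _ q (a q) α β T1 hT10 (hbd α M hM0 hMle hα)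
          (hbd β N hN0 hNle hβ)).trans ?_
        have h6 : (⌊4 * M⌋₊ : ℝ) * (⌊4 * N⌋₊ : ℝ) * T1 ^ 2 ≤ x1 * 256 * T1 ^ 2 :=
          mul_le_mul_of_nonneg_right hMN (by positivity)
        linarith
      · exact h0
    calc _ ≤ ∑ q ∈ Icc 1 ⌊x ^ θ⌋₊, 2 * (x1 * 256 * T1 ^ 2) :=
          Finset.sum_le_sum hq
      _ = (⌊x ^ θ⌋₊ : ℝ) * (2 * (x1 * 256 * T1 ^ 2)) := by simp
      _ ≤ (x1 + 1) * (2 * (x1 * 256 * T1 ^ 2)) :=
          mul_le_mul_of_nonneg_right hcard (by positivity)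
      _ ≤ _ := by
          rw [le_div_iff₀ (by positivity)]
          have h7 : (Real.log x) ^ A ≤ (Real.log x1) ^ A := pow_le_pow_left₀ hlogx.le hlog1 A
          set P : ℝ := (x1 + 1) * (2 * (x1 * 256 * T1 ^ 2)) with hP
          have hP0 : 0 ≤ P := by positivity
          have h8 : P * (Real.log x) ^ A ≤ P * (Real.log x1) ^ A :=
            mul_le_mul_of_nonneg_left h7 hP0
          have h9 : 0 ≤ P * (Real.log x1) ^ A := by positivity
          nlinarith

end Pool.Agent.BV
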