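import Pool.Agent.BV.SumQ

set_option autoImplicit false

/-! Small conductors. -/

namespace Pool.Agent.BV

open Finset
open scoped Classical

/-- Siegel-Walfisz condition in character form, exponent `B`, constant `K`, length `N`:
for primitive characters of conductor `1 < f <= L^B` and all coprimality conditions `s`. -/
def SW (β : ℕ → ℂ) (Y : ℕ) (N L K : ℝ) (B : ℕ) : Prop :=
  ∀ f : ℕ, 1 < f → (f : ℝ) ≤ L ^ B → ∀ ψ : DirichletCharacter ℂ f, ψ.IsPrimitive →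
    ∀ s : ℕ, 1 ≤ s → ‖csum β Y ψ s‖ ≤ K * tau s * N / L ^ B

namespace SMALLAux

theorem csum_l2 {q : ℕ} (α : ℕ → ℂ) (X s : ℕ) (ψ : DirichletCharacter ℂ q) :
    ‖csum α X ψ s‖ ≤ Real.sqrt X * Real.sqrt (∑ n ∈ Icc 1 X, ‖α n‖ ^ 2) := by
  have h1 : ‖csum α X ψ s‖ ≤ ∑ n ∈ Icc 1 X, 1 * ‖α n‖ := by
    unfold csum
    refine (norm_sum_le _ _).trans (Finset.sum_le_sum fun n _ => ?_)
    rw [one_mul]
    split_ifs with h
    · rw [norm_mul]
      exact mul_le_of_le_one_right (norm_nonneg _) (ψ.norm_le_one _)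
    · rw [norm_zero]
      exact norm_nonneg _
  refine h1.trans ?_
  have h2 := Finset.sum_mul_sq_le_sq_mul_sq (Icc 1 X) (fun _ => (1 : ℝ)) (fun n => ‖α n‖)
  have h3 : ∑ n ∈ Icc 1 X, (1 : ℝ) ^ 2 = X := by simp
  rw [h3] at h2
  rw [← Real.sqrt_mul (Nat.cast_nonneg X)]
  exact Real.le_sqrt_of_sq_le h2

theorem card_char_le {f : ℕ} (hf : 1 < f) :
    ((Finset.univ.filter fun ψ : DirichletCharacter ℂ f => ψ.IsPrimitive).card : ℝ) ≤
      f.totient := by
  have : NeZero f := ⟨by omega⟩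
  have h1 : Fintype.card (DirichletCharacter ℂ f) = f.totient := by
    rw [← Nat.card_eq_fintype_card]
    exact DirichletCharacter.card_eq_totient_of_hasEnoughRootsOfUnity ℂ f
  have h2 := Finset.card_le_univ
    (Finset.univ.filter fun ψ : DirichletCharacter ℂ f => ψ.IsPrimitive)
  rw [h1] at h2
  exact_mod_cast h2

end SMALLAux

open SMALLAux

/-- Small conductors: `|csum beta| <= K tau(s) N L^(-B)`,
`|csum alpha| <= sqrt X * sqrt (sum |alpha|^2)`, at most `phi f` characters mod `f`. -/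
theorem PS_small (α β : ℕ → ℂ) (X Y D s : ℕ) (N L K : ℝ) (B : ℕ) (hL : 1 ≤ L) (hK : 0 ≤ K)
    (hN : 0 ≤ N) (hs : 1 ≤ s) (hD : (D : ℝ) ≤ L ^ B) (hβ : SW β Y N L K B) :
    PS α β X Y 1 D s ≤ D * Real.sqrt X * Real.sqrt (∑ n ∈ Icc 1 X, ‖α n‖ ^ 2) *
      (K * tau s * N / L ^ B) := by
  set A : ℝ := Real.sqrt X * Real.sqrt (∑ n ∈ Icc 1 X, ‖α n‖ ^ 2) with hA
  set E : ℝ := K * tau s * N / L ^ B with hE
  have hA0 : 0 ≤ A := mul_nonneg (Real.sqrt_nonneg _) (Real.sqrt_nonneg _)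
  have htau : 0 ≤ tau s := Nat.cast_nonneg _
  have hE0 : 0 ≤ E := by
    rw [hE]
    exact div_nonneg (mul_nonneg (mul_nonneg hK htau) hN) (pow_nonneg (by linarith) _)
  have hone : ∀ f ∈ Ioc 1 D, (1 / (f.totient : ℝ)) *
      ∑ ψ : DirichletCharacter ℂ f with ψ.IsPrimitive, ‖csum α X ψ s‖ * ‖csum β Y ψ s‖ ≤
        A * E := by
    intro f hf
    rw [Finset.mem_Ioc] at hf
    have hphi : (0 : ℝ) < f.totient := by
      exact_mod_cast Nat.totient_pos.2 (by omega)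
    have hfD : (f : ℝ) ≤ L ^ B := le_trans (by exact_mod_cast hf.2) hD
    have h1 : ∑ ψ : DirichletCharacter ℂ f with ψ.IsPrimitive,
        ‖csum α X ψ s‖ * ‖csum β Y ψ s‖ ≤
        ∑ ψ : DirichletCharacter ℂ f with ψ.IsPrimitive, A * E := by
      refine Finset.sum_le_sum fun ψ hψ => ?_
      rw [Finset.mem_filter] at hψ
      exact mul_le_mul (csum_l2 α X s ψ) (hβ f hf.1 hfD ψ hψ.2 s hs) (norm_nonneg _) hA0
    rw [Finset.sum_const, nsmul_eq_mul] at h1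
    have h2 : ((Finset.univ.filter fun ψ : DirichletCharacter ℂ f => ψ.IsPrimitive).card : ℝ) *
        (A * E) ≤ f.totient * (A * E) :=
      mul_le_mul_of_nonneg_right (card_char_le hf.1) (mul_nonneg hA0 hE0)
    calc (1 / (f.totient : ℝ)) * ∑ ψ : DirichletCharacter ℂ f with ψ.IsPrimitive,
          ‖csum α X ψ s‖ * ‖csum β Y ψ s‖
        ≤ (1 / (f.totient : ℝ)) * (f.totient * (A * E)) :=
          mul_le_mul_of_nonneg_left (h1.trans h2) (by positivity)
      _ = A * E := by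
          field_simp
  unfold PS
  refine (Finset.sum_le_sum hone).trans ?_
  rw [Finset.sum_const, Nat.card_Ioc, nsmul_eq_mul]
  have h3 : (((D - 1 : ℕ)) : ℝ) ≤ D := by exact_mod_cast Nat.sub_le D 1
  calc (((D - 1 : ℕ)) : ℝ) * (A * E) ≤ D * (A * E) :=
        mul_le_mul_of_nonneg_right h3 (mul_nonneg hA0 hE0)
    _ = D * Real.sqrt X * Real.sqrt (∑ n ∈ Icc 1 X, ‖α n‖ ^ 2) * E := by
        rw [hA]
        ring

end Pool.Agent.BV
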