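import Pool.Agent.BV.Defs

set_option autoImplicit false

/-! Divisor sums. -/

namespace Pool.Agent.BV

open Finset

private theorem TauA_nonneg (n : ℕ) : 0 ≤ tau n := Nat.cast_nonneg _

/-- The map (d of a, e of b) to d e is onto the divisors of a b. -/
theorem tau_mul_le (a b : ℕ) (ha : a ≠ 0) (hb : b ≠ 0) : tau (a * b) ≤ tau a * tau b := by
  unfold tau
  rw [← Nat.cast_mul]
  have h : (a * b).divisors.card ≤ a.divisors.card * b.divisors.card := by
    have h1 : (a * b).divisors ⊆ (a.divisors ×ˢ b.divisors).image (fun p => p.1 * p.2) := by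
      intro d hd
      rw [Nat.mem_divisors] at hd
      obtain ⟨d1, d2, h1, h2, h3⟩ := (Nat.dvd_mul).1 hd.1
      rw [Finset.mem_image]
      exact ⟨(d1, d2), by
        rw [Finset.mem_product, Nat.mem_divisors, Nat.mem_divisors]
        exact ⟨⟨h1, ha⟩, h2, hb⟩, h3⟩
    exact ((card_le_card h1).trans card_image_le).trans (by rw [card_product])
  exact_mod_cast h

/-- `n / phi n = prod (1 + 1/(p-1)) <= prod 2 = 2 ^ omega n <= tau n`. -/
theorem div_totient_le (n : ℕ) (hn : n ≠ 0) : (n : ℝ) / (n.totient : ℝ) ≤ tau n := by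
  have hφ : 0 < n.totient := Nat.totient_pos.2 (Nat.pos_of_ne_zero hn)
  have hφ' : (0 : ℝ) < n.totient := by exact_mod_cast hφ
  rw [div_le_iff₀ hφ']
  unfold tau
  have h1 : n ≤ n.divisors.card * n.totient := by
    have h2 := Nat.totient_mul_prod_primeFactors n
    have h3 : ∏ p ∈ n.primeFactors, p ≤ (∏ p ∈ n.primeFactors, 2) * ∏ p ∈ n.primeFactors, (p - 1) := by
      rw [← Finset.prod_mul_distrib]
      refine Finset.prod_le_prod' (fun p hp => ?_)
      have := (Nat.prime_of_mem_primeFactors hp).two_le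
      omega
    have h4 : (∏ p ∈ n.primeFactors, 2) ≤ n.divisors.card := by
      rw [Nat.card_divisors hn]
      refine Finset.prod_le_prod' (fun p hp => ?_)
      have h5 : n.factorization p ≠ 0 := by
        rw [← Finsupp.mem_support_iff, Nat.support_factorization]
        exact hp
      omega
    have h5 : 0 < ∏ p ∈ n.primeFactors, (p - 1) := by
      refine Finset.prod_pos (fun p hp => ?_)
      have := (Nat.prime_of_mem_primeFactors hp).two_le
      omega
    refine Nat.le_of_mul_le_mul_right ?_ h5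
    calc n * ∏ p ∈ n.primeFactors, (p - 1) = n.totient * ∏ p ∈ n.primeFactors, p := h2.symm
      _ ≤ n.totient * ((∏ p ∈ n.primeFactors, 2) * ∏ p ∈ n.primeFactors, (p - 1)) :=
          Nat.mul_le_mul_left _ h3
      _ ≤ n.totient * (n.divisors.card * ∏ p ∈ n.primeFactors, (p - 1)) :=
          Nat.mul_le_mul_left _ (Nat.mul_le_mul_right _ h4)
      _ = n.divisors.card * n.totient * ∏ p ∈ n.primeFactors, (p - 1) := by ring
  exact_mod_cast h1

private theorem TauA_pairs (f : ℕ × ℕ → ℝ) (hf : ∀ p, 0 ≤ f p) (X : ℕ) :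
    ∑ n ∈ Icc 1 X, ∑ p ∈ n.divisorsAntidiagonal, f p ≤ ∑ p ∈ Icc 1 X ×ˢ Icc 1 X, f p := by
  classical
  rw [← Finset.sum_biUnion]
  · refine Finset.sum_le_sum_of_subset_of_nonneg ?_ (fun p _ _ => hf p)
    intro p hp
    rw [Finset.mem_biUnion] at hp
    obtain ⟨n, hn, hp⟩ := hp
    rw [Nat.mem_divisorsAntidiagonal] at hp
    rw [Finset.mem_Icc] at hn
    rw [Finset.mem_product, Finset.mem_Icc, Finset.mem_Icc]
    have h1 : 0 < p.1 := by
      rcases Nat.eq_zero_or_pos p.1 with h | h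
      · rw [h, zero_mul] at hp; omega
      · exact h
    have h2 : 0 < p.2 := by
      rcases Nat.eq_zero_or_pos p.2 with h | h
      · rw [h, mul_zero] at hp; omega
      · exact h
    have h3 : p.1 ≤ p.1 * p.2 := Nat.le_mul_of_pos_right _ h2
    have h4 : p.2 ≤ p.1 * p.2 := Nat.le_mul_of_pos_left _ h1
    rw [hp.1] at h3 h4
    omega
  · intro a _ b _ hab
    rw [Function.onFun, Finset.disjoint_left]
    intro p hp hp2
    rw [Nat.mem_divisorsAntidiagonal] at hp hp2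
    exact hab (hp.1.symm.trans hp2.1)

private theorem TauA_term (k n : ℕ) (hn : n ≠ 0) :
    tau n ^ (k + 1) / (n : ℝ) ≤ ∑ p ∈ n.divisorsAntidiagonal,
      (tau p.1 ^ k / (p.1 : ℝ)) * (tau p.2 ^ k / (p.2 : ℝ)) := by
  have h1 : tau n ^ (k + 1) / (n : ℝ) = ∑ _p ∈ n.divisorsAntidiagonal, tau n ^ k / (n : ℝ) := by
    rw [Finset.sum_const, nsmul_eq_mul]
    have h2 : (n.divisorsAntidiagonal.card : ℝ) = tau n := by
      unfold tau
      rw [← Nat.map_div_right_divisors, Finset.card_map]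
    rw [h2]
    ring
  rw [h1]
  refine Finset.sum_le_sum (fun p hp => ?_)
  rw [Nat.mem_divisorsAntidiagonal] at hp
  obtain ⟨hp1, hp2⟩ := hp
  have h3 : p.1 ≠ 0 := by
    intro h; rw [h, zero_mul] at hp1; exact hn hp1.symm
  have h4 : p.2 ≠ 0 := by
    intro h; rw [h, mul_zero] at hp1; exact hn hp1.symm
  rw [← hp1, Nat.cast_mul, div_mul_div_comm, ← mul_pow]
  have h5 := tau_mul_le p.1 p.2 h3 h4
  have h6 := pow_le_pow_left₀ (TauA_nonneg _) h5 k
  gcongr

/-- Induction on k: k = 0 is the harmonic sum; `tau n ^ (k+1) / n` = sum over `a b = n` of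
`tau (a b) ^ k / (a b) <= (tau a ^ k / a) (tau b ^ k / b)`; sum over all `a, b <= X`. -/
theorem tau_pow_sum_div (k X : ℕ) :
    ∑ n ∈ Icc 1 X, tau n ^ k / (n : ℝ) ≤ (1 + Real.log X) ^ (2 ^ k) := by
  induction k with
  | zero =>
    have h1 := harmonic_le_one_add_log X
    have h2 : ∑ n ∈ Icc 1 X, tau n ^ 0 / (n : ℝ) = ((harmonic X : ℚ) : ℝ) := by
      rw [harmonic_eq_sum_Icc]
      push_cast
      refine Finset.sum_congr rfl (fun n _ => ?_)
      rw [pow_zero, one_div]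
    rw [h2]
    simpa using h1
  | succ k ih =>
    have h0 : 0 ≤ ∑ n ∈ Icc 1 X, tau n ^ k / (n : ℝ) := Finset.sum_nonneg (fun n _ =>
      div_nonneg (pow_nonneg (TauA_nonneg _) _) (Nat.cast_nonneg _))
    calc ∑ n ∈ Icc 1 X, tau n ^ (k + 1) / (n : ℝ)
        ≤ ∑ n ∈ Icc 1 X, ∑ p ∈ n.divisorsAntidiagonal,
          (tau p.1 ^ k / (p.1 : ℝ)) * (tau p.2 ^ k / (p.2 : ℝ)) :=
          Finset.sum_le_sum (fun n hn => TauA_term k n (by
            rw [Finset.mem_Icc] at hn; omega))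
      _ ≤ ∑ p ∈ Icc 1 X ×ˢ Icc 1 X, (tau p.1 ^ k / (p.1 : ℝ)) * (tau p.2 ^ k / (p.2 : ℝ)) :=
          TauA_pairs (fun p => (tau p.1 ^ k / (p.1 : ℝ)) * (tau p.2 ^ k / (p.2 : ℝ)))
            (fun p => mul_nonneg
              (div_nonneg (pow_nonneg (TauA_nonneg _) _) (Nat.cast_nonneg _))
              (div_nonneg (pow_nonneg (TauA_nonneg _) _) (Nat.cast_nonneg _))) X
      _ = (∑ n ∈ Icc 1 X, tau n ^ k / (n : ℝ)) * ∑ n ∈ Icc 1 X, tau n ^ k / (n : ℝ) := by
          rw [Finset.sum_mul_sum, Finset.sum_product]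
      _ = (∑ n ∈ Icc 1 X, tau n ^ k / (n : ℝ)) ^ 2 := (sq _).symm
      _ ≤ ((1 + Real.log X) ^ (2 ^ k)) ^ 2 := pow_le_pow_left₀ h0 ih 2
      _ = (1 + Real.log X) ^ (2 ^ (k + 1)) := by rw [← pow_mul, pow_succ]

/-- From `tau_pow_sum_div`: every term is at most `X` times `tau n ^ k / n`. -/
theorem tau_pow_sum (k X : ℕ) :
    ∑ n ∈ Icc 1 X, tau n ^ k ≤ (X : ℝ) * (1 + Real.log X) ^ (2 ^ k) := by
  calc ∑ n ∈ Icc 1 X, tau n ^ k ≤ ∑ n ∈ Icc 1 X, (X : ℝ) * (tau n ^ k / (n : ℝ)) := by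
        refine Finset.sum_le_sum (fun n hn => ?_)
        rw [Finset.mem_Icc] at hn
        have h1 : (0 : ℝ) < n := by exact_mod_cast hn.1
        have h2 : (n : ℝ) ≤ X := by exact_mod_cast hn.2
        have h3 : 0 ≤ tau n ^ k := pow_nonneg (TauA_nonneg _) _
        rw [mul_div_assoc', le_div_iff₀ h1, mul_comm]
        exact mul_le_mul_of_nonneg_right h2 h3
    _ = (X : ℝ) * ∑ n ∈ Icc 1 X, tau n ^ k / (n : ℝ) := by rw [Finset.mul_sum]
    _ ≤ (X : ℝ) * (1 + Real.log X) ^ (2 ^ k) :=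
        mul_le_mul_of_nonneg_left (tau_pow_sum_div k X) (Nat.cast_nonneg _)

/-- From `div_totient_le` and `tau_pow_sum_div (k+1)`. -/
theorem tau_pow_sum_totient (k X : ℕ) :
    ∑ n ∈ Icc 1 X, tau n ^ k / (n.totient : ℝ) ≤ (1 + Real.log X) ^ (2 ^ (k + 1)) := by
  refine le_trans (Finset.sum_le_sum (fun n hn => ?_)) (tau_pow_sum_div (k + 1) X)
  rw [Finset.mem_Icc] at hn
  have h0 : n ≠ 0 := by omega
  have h1 : (0 : ℝ) < n := by exact_mod_cast hn.1
  have h2 : (0 : ℝ) < n.totient := by exact_mod_cast Nat.totient_pos.2 hn.1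
  have h3 : 0 ≤ tau n ^ k := pow_nonneg (TauA_nonneg _) _
  have h4 := div_totient_le n h0
  rw [div_le_iff₀ h2] at h4
  rw [div_le_div_iff₀ h2 h1, pow_succ]
  calc tau n ^ k * (n : ℝ) ≤ tau n ^ k * (tau n * n.totient) :=
        mul_le_mul_of_nonneg_left h4 h3
    _ = tau n ^ k * tau n * (n.totient : ℝ) := by ring

end Pool.Agent.BV
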