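import Pool.Agent.BV.LargeB
import Pool.Agent.BV.Small
import Pool.Agent.BV.TauA

set_option autoImplicit false

/-! Bombieri-Vinogradov for convolutions. -/

namespace Pool.Agent.BV

open Finset
open scoped Classical

private theorem PS_split (α β : ℕ → ℂ) (X Y D Q s : ℕ) :
    PS α β X Y 1 Q s ≤ PS α β X Y 1 D s + PS α β X Y D Q s := by
  unfold PS
  set F : ℕ → ℝ := fun f => (1 / (f.totient : ℝ)) *
    ∑ ψ : DirichletCharacter ℂ f with ψ.IsPrimitive, ‖csum α X ψ s‖ * ‖csum β Y ψ s‖ with hF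
  have h0 : ∀ f, 0 ≤ F f := fun f => by
    rw [hF]
    exact mul_nonneg (by positivity) (Finset.sum_nonneg fun ψ _ => by positivity)
  calc ∑ f ∈ Ioc 1 Q, F f ≤ ∑ f ∈ Ioc 1 D ∪ Ioc D Q, F f := by
        apply Finset.sum_le_sum_of_subset_of_nonneg
        · intro f hf
          rw [mem_Ioc] at hf
          rw [mem_union, mem_Ioc, mem_Ioc]
          omega
        · intro f _ _; exact h0 f
    _ ≤ ∑ f ∈ Ioc 1 D, F f + ∑ f ∈ Ioc D Q, F f := by
        have := Finset.sum_union_inter (s₁ := Ioc 1 D) (s₂ := Ioc D Q) (f := F)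
        have h2 : 0 ≤ ∑ f ∈ Ioc 1 D ∩ Ioc D Q, F f := Finset.sum_nonneg fun f _ => h0 f
        linarith

private theorem natlog_le (Q : ℕ) (L : ℝ) (hL : 3 ≤ L) (hQ : (Q : ℝ) ≤ Real.exp (4 * L)) :
    ((Nat.log 2 Q : ℕ) : ℝ) + 1 ≤ 7 * L ∧ 1 + Real.log Q ≤ 5 * L ∧ 0 ≤ 1 + Real.log Q := by
  have hlog : Real.log Q ≤ 4 * L := by
    rcases Nat.eq_zero_or_pos Q with h | h
    · subst h; simp; linarith
    · have hQ0 : (0 : ℝ) < Q := by exact_mod_cast h
      have := Real.log_le_log hQ0 hQ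
      rwa [Real.log_exp] at this
  have hlog0 : 0 ≤ Real.log Q := Real.log_natCast_nonneg Q
  refine ⟨?_, by linarith, by linarith⟩
  have h2 : (0.6931471803 : ℝ) < Real.log 2 := Real.log_two_gt_d9
  have : ((Nat.log 2 Q : ℕ) : ℝ) * Real.log 2 ≤ Real.log Q := by
    rcases Nat.eq_zero_or_pos Q with h | h
    · subst h; simp
    · have hp := Nat.pow_log_le_self 2 (Nat.pos_iff_ne_zero.mp h)
      have hp' : ((2 : ℝ) ^ (Nat.log 2 Q)) ≤ Q := by exact_mod_cast hp
      have := Real.log_le_log (by positivity) hp'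
      rwa [Real.log_pow] at this
  have h3 : ((Nat.log 2 Q : ℕ) : ℝ) * 0.6931471803 ≤ 4 * L := by
    have h0 : (0 : ℝ) ≤ ((Nat.log 2 Q : ℕ) : ℝ) := Nat.cast_nonneg _
    nlinarith
  nlinarith

/-- **Bombieri-Vinogradov for convolutions.** Put `D = floor (L^B1)`, `B1 = A + C + 3`,
`B = 2 * (A + C + 4)`; `sum_bdisc_le`, `PS 1 Q <= PS 1 D + PS D Q`, `PS_small`,
`PS_large`, `log Q <= 4 L` and (with `tau_mul_le`, `tau_pow_sum_totient`)
`sum over t <= Q of tau (s0 t) / phi t <= tau s0 * (1 + log Q)^4`,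
`sum over t <= Q of 1 / phi t <= (1 + log Q)^2`. -/
theorem bvc (A C : ℕ) : ∃ B : ℕ, ∃ K0 : ℝ, 0 < K0 ∧
    ∀ (L K M N : ℝ) (X Y Q s0 : ℕ) (α β : ℕ → ℂ),
    3 ≤ L → 0 ≤ K → 1 ≤ s0 → L ^ B ≤ M → L ^ B ≤ N → M * N ≤ Real.exp (8 * L) →
    (X : ℝ) ≤ 4 * M → (Y : ℝ) ≤ 4 * N → (Q : ℝ) * L ^ B ≤ Real.sqrt (M * N) →
    (∑ n ∈ Icc 1 X, ‖α n‖ ^ 2 ≤ M * L ^ C) → (∑ n ∈ Icc 1 Y, ‖β n‖ ^ 2 ≤ N * L ^ C) →
    SW β Y N L K B →
    ∀ c : ℕ → ℕ, (∀ q, (c q).Coprime q) →
      ∑ q ∈ Icc 1 Q, ‖bdisc α β X Y q (c q) s0‖ ≤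
        K0 * (1 + K) * tau s0 * (M * N) / L ^ A := by
  refine ⟨2 * (A + C + 4), 24000, by norm_num, ?_⟩
  intro L K M N X Y Q s0 α β hL hK hs hM hN hMN hX hY hQ hα hβ hSW c hc
  set B : ℕ := 2 * (A + C + 4) with hB
  set B1 : ℕ := A + C + 3 with hB1
  have hL1 : (1 : ℝ) ≤ L := by linarith
  have hL0 : (0 : ℝ) < L := by linarith
  have hLB : (1 : ℝ) ≤ L ^ B := one_le_pow₀ hL1
  have hM1 : 1 ≤ M := hLB.trans hM
  have hN1 : 1 ≤ N := hLB.trans hN
  have hM0 : 0 < M := by linarith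
  have hN0 : 0 < N := by linarith
  have hsqrt_exp : Real.sqrt (M * N) ≤ Real.exp (4 * L) := by
    rw [show Real.exp (4 * L) = Real.sqrt (Real.exp (8 * L)) by
      rw [show (8 * L) = 4 * L + 4 * L by ring, Real.exp_add,
        Real.sqrt_mul_self (Real.exp_pos _).le]]
    exact Real.sqrt_le_sqrt hMN
  have hQe : (Q : ℝ) ≤ Real.exp (4 * L) := by
    have : (Q : ℝ) * 1 ≤ (Q : ℝ) * L ^ B := by
      apply mul_le_mul_of_nonneg_left hLB (Nat.cast_nonneg _)
    linarith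
  obtain ⟨hlog2, hlogQ, hlogQ0⟩ := natlog_le Q L hL hQe
  -- D
  have hLB1 : (1 : ℝ) ≤ L ^ B1 := one_le_pow₀ hL1
  set D : ℕ := ⌊L ^ B1⌋₊ with hD
  have hD1 : 1 ≤ D := by rw [hD]; exact Nat.le_floor (by exact_mod_cast hLB1)
  have hDle : (D : ℝ) ≤ L ^ B1 := Nat.floor_le (by positivity)
  have hDge : L ^ B1 ≤ 2 * (D : ℝ) := by
    have h1 : L ^ B1 < (D : ℝ) + 1 := Nat.lt_floor_add_one _
    have h2 : (1 : ℝ) ≤ D := by exact_mod_cast hD1
    linarith
  have hB1B : L ^ B1 ≤ L ^ B := pow_le_pow_right₀ hL1 (by omega)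
  -- square roots
  have hLC : (1 : ℝ) ≤ L ^ C := one_le_pow₀ hL1
  have hsLC : Real.sqrt (L ^ C) ≤ L ^ C := by
    rw [Real.sqrt_le_left (by positivity)]
    nlinarith
  have hSα : Real.sqrt (∑ n ∈ Icc 1 X, ‖α n‖ ^ 2) ≤ Real.sqrt M * Real.sqrt (L ^ C) := by
    rw [← Real.sqrt_mul hM0.le]; exact Real.sqrt_le_sqrt hα
  have hSβ : Real.sqrt (∑ n ∈ Icc 1 Y, ‖β n‖ ^ 2) ≤ Real.sqrt N * Real.sqrt (L ^ C) := by
    rw [← Real.sqrt_mul hN0.le]; exact Real.sqrt_le_sqrt hβ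
  have h4 : Real.sqrt 4 = 2 := by
    rw [show (4 : ℝ) = 2 ^ 2 by norm_num, Real.sqrt_sq (by norm_num)]
  have hsX : Real.sqrt X ≤ 2 * Real.sqrt M := by
    rw [← h4, ← Real.sqrt_mul (by norm_num)]; exact Real.sqrt_le_sqrt hX
  have hsY : Real.sqrt Y ≤ 2 * Real.sqrt N := by
    rw [← h4, ← Real.sqrt_mul (by norm_num)]; exact Real.sqrt_le_sqrt hY
  have hsXY : Real.sqrt ((X : ℝ) * Y) ≤ 4 * Real.sqrt (M * N) := by
    rw [Real.sqrt_mul (Nat.cast_nonneg _), Real.sqrt_mul hM0.le]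
    have := mul_le_mul hsX hsY (Real.sqrt_nonneg _) (by positivity)
    calc _ ≤ _ := this
      _ = _ := by ring
  set P : ℝ := Real.sqrt (M * N) with hP
  have hP0 : 0 ≤ P := Real.sqrt_nonneg _
  have hPP : P * P = M * N := Real.mul_self_sqrt (by positivity)
  have hPMN : P = Real.sqrt M * Real.sqrt N := by rw [hP, Real.sqrt_mul hM0.le]
  have hLB2 : L ^ B1 ≤ Real.sqrt N := by
    apply Real.le_sqrt_of_sq_le
    rw [← pow_mul]
    exact (pow_le_pow_right₀ hL1 (by omega)).trans hN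
  have hLB2' : L ^ B1 ≤ Real.sqrt M := by
    apply Real.le_sqrt_of_sq_le
    rw [← pow_mul]
    exact (pow_le_pow_right₀ hL1 (by omega)).trans hM
  have hLB1pos : (0 : ℝ) < L ^ B1 := by positivity
  -- the bound for the bracket
  have hbr : (Q : ℝ) + Real.sqrt X + Real.sqrt Y + Real.sqrt ((X : ℝ) * Y) / D ≤
      13 * P / L ^ B1 := by
    have e1 : (Q : ℝ) ≤ P / L ^ B1 := by
      rw [le_div_iff₀ hLB1pos]
      calc (Q : ℝ) * L ^ B1 ≤ Q * L ^ B := by
            apply mul_le_mul_of_nonneg_left hB1B (Nat.cast_nonneg _)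
        _ ≤ P := hQ
    have e2 : Real.sqrt X ≤ 2 * P / L ^ B1 := by
      rw [le_div_iff₀ hLB1pos, hPMN]
      calc Real.sqrt X * L ^ B1 ≤ (2 * Real.sqrt M) * Real.sqrt N :=
            mul_le_mul hsX hLB2 hLB1pos.le (by positivity)
        _ = 2 * (Real.sqrt M * Real.sqrt N) := by ring
    have e3 : Real.sqrt Y ≤ 2 * P / L ^ B1 := by
      rw [le_div_iff₀ hLB1pos, hPMN]
      calc Real.sqrt Y * L ^ B1 ≤ (2 * Real.sqrt N) * Real.sqrt M :=
            mul_le_mul hsY hLB2' hLB1pos.le (by positivity)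
        _ = 2 * (Real.sqrt M * Real.sqrt N) := by ring
    have hD0 : (0 : ℝ) < D := by exact_mod_cast hD1
    have e4 : Real.sqrt ((X : ℝ) * Y) / D ≤ 8 * P / L ^ B1 := by
      rw [div_le_div_iff₀ hD0 hLB1pos]
      calc Real.sqrt ((X : ℝ) * Y) * L ^ B1 ≤ (4 * P) * (2 * D) :=
            mul_le_mul hsXY hDge hLB1pos.le (by positivity)
        _ = 8 * P * D := by ring
    calc _ ≤ P / L ^ B1 + 2 * P / L ^ B1 + 2 * P / L ^ B1 + 8 * P / L ^ B1 := by linarith
      _ = _ := by ring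
  -- bounds for PS
  have hlarge : ∀ s, PS α β X Y D Q s ≤ 910 * (M * N) * L ^ (C + 1) / L ^ B1 := by
    intro s
    refine (PS_large α β X Y D Q s hD1).trans ?_
    have e5 : Real.sqrt (∑ n ∈ Icc 1 X, ‖α n‖ ^ 2) * Real.sqrt (∑ n ∈ Icc 1 Y, ‖β n‖ ^ 2) ≤
        P * L ^ C := by
      calc _ ≤ (Real.sqrt M * Real.sqrt (L ^ C)) * (Real.sqrt N * Real.sqrt (L ^ C)) :=
            mul_le_mul hSα hSβ (Real.sqrt_nonneg _) (by positivity)
        _ = (Real.sqrt M * Real.sqrt N) * (Real.sqrt (L ^ C) * Real.sqrt (L ^ C)) := by ring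
        _ = P * L ^ C := by rw [Real.mul_self_sqrt (by positivity), hPMN]
    have e6 : 10 * (((Nat.log 2 Q : ℕ) : ℝ) + 1) ≤ 70 * L := by linarith
    rw [mul_assoc (10 * (((Nat.log 2 Q : ℕ) : ℝ) + 1) * _)]
    calc _ ≤ (70 * L * (13 * P / L ^ B1)) * (P * L ^ C) := by
          apply mul_le_mul _ e5 (by positivity) (by positivity)
          exact mul_le_mul e6 hbr (by positivity) (by positivity)
      _ = 910 * (P * P) * (L ^ C * L) / L ^ B1 := by ring
      _ = _ := by rw [hPP, ← pow_succ]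
  have hsmall : ∀ t, 1 ≤ t → PS α β X Y 1 D (s0 * t) ≤
      2 * (M * N) * K * tau s0 * L ^ (B1 + C) / L ^ B * tau t := by
    intro t ht
    have hst : 1 ≤ s0 * t := Nat.mul_pos hs ht
    refine (PS_small α β X Y D (s0 * t) N L K B hL1 hK hN0.le hst (hDle.trans hB1B) hSW).trans ?_
    have e7 : tau (s0 * t) ≤ tau s0 * tau t := tau_mul_le s0 t (by omega) (by omega)
    have e8 : (D : ℝ) * Real.sqrt X * Real.sqrt (∑ n ∈ Icc 1 X, ‖α n‖ ^ 2) ≤
        L ^ B1 * (2 * M * L ^ C) := by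
      calc (D : ℝ) * Real.sqrt X * Real.sqrt (∑ n ∈ Icc 1 X, ‖α n‖ ^ 2)
          ≤ (L ^ B1 * (2 * Real.sqrt M)) * (Real.sqrt M * L ^ C) := by
            apply mul_le_mul _ _ (Real.sqrt_nonneg _) (by positivity)
            · exact mul_le_mul hDle hsX (Real.sqrt_nonneg _) (by positivity)
            · exact hSα.trans (mul_le_mul_of_nonneg_left hsLC (Real.sqrt_nonneg _))
        _ = L ^ B1 * (2 * (Real.sqrt M * Real.sqrt M) * L ^ C) := by ring
        _ = _ := by rw [Real.mul_self_sqrt hM0.le]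
    have e9 : K * tau (s0 * t) * N / L ^ B ≤ K * (tau s0 * tau t) * N / L ^ B := by
      have : K * tau (s0 * t) ≤ K * (tau s0 * tau t) := mul_le_mul_of_nonneg_left e7 hK
      have h2 : K * tau (s0 * t) * N ≤ K * (tau s0 * tau t) * N :=
        mul_le_mul_of_nonneg_right this hN0.le
      exact div_le_div_of_nonneg_right h2 (by positivity)
    have ht0 : 0 ≤ tau (s0 * t) := Nat.cast_nonneg _
    calc _ ≤ (L ^ B1 * (2 * M * L ^ C)) * (K * (tau s0 * tau t) * N / L ^ B) := by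
          apply mul_le_mul e8 e9 (by positivity) (by positivity)
      _ = _ := by rw [pow_add]; ring
  -- summation over t
  have hT0 : ∑ t ∈ Icc 1 Q, 1 / (t.totient : ℝ) ≤ (5 * L) ^ 2 := by
    have := tau_pow_sum_totient 0 Q
    simp only [pow_zero] at this
    refine this.trans ?_
    exact pow_le_pow_left₀ hlogQ0 hlogQ _
  have hT1 : ∑ t ∈ Icc 1 Q, tau t / (t.totient : ℝ) ≤ (5 * L) ^ 4 := by
    have := tau_pow_sum_totient 1 Q
    simp only [pow_one] at this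
    refine this.trans ?_
    exact pow_le_pow_left₀ hlogQ0 hlogQ _
  have hs01 : 1 ≤ tau s0 := by
    unfold tau
    have : 0 < s0.divisors.card := Finset.card_pos.mpr (Nat.nonempty_divisors.mpr (by omega))
    exact_mod_cast this
  have hmain : ∑ q ∈ Icc 1 Q, ‖bdisc α β X Y q (c q) s0‖ ≤
      2 * (M * N) * K * tau s0 * L ^ (B1 + C) / L ^ B * (5 * L) ^ 4 +
        910 * (M * N) * L ^ (C + 1) / L ^ B1 * (5 * L) ^ 2 := by
    refine (sum_bdisc_le α β X Y Q s0 c hc).trans ?_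
    calc ∑ t ∈ Icc 1 Q, (1 / (t.totient : ℝ)) * PS α β X Y 1 Q (s0 * t)
        ≤ ∑ t ∈ Icc 1 Q, (2 * (M * N) * K * tau s0 * L ^ (B1 + C) / L ^ B *
            (tau t / (t.totient : ℝ)) +
            910 * (M * N) * L ^ (C + 1) / L ^ B1 * (1 / (t.totient : ℝ))) := by
          apply Finset.sum_le_sum
          intro t ht
          rw [mem_Icc] at ht
          have h1 := PS_split α β X Y D Q (s0 * t)
          have h2 := hlarge (s0 * t)
          have h3 := hsmall t ht.1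
          have h5 : (0 : ℝ) ≤ 1 / (t.totient : ℝ) := by positivity
          calc (1 / (t.totient : ℝ)) * PS α β X Y 1 Q (s0 * t)
              ≤ (1 / (t.totient : ℝ)) * (2 * (M * N) * K * tau s0 * L ^ (B1 + C) / L ^ B * tau t +
                  910 * (M * N) * L ^ (C + 1) / L ^ B1) :=
                mul_le_mul_of_nonneg_left (by linarith) h5
            _ = _ := by ring
      _ = 2 * (M * N) * K * tau s0 * L ^ (B1 + C) / L ^ B *
            (∑ t ∈ Icc 1 Q, tau t / (t.totient : ℝ)) +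
            910 * (M * N) * L ^ (C + 1) / L ^ B1 * ∑ t ∈ Icc 1 Q, 1 / (t.totient : ℝ) := by
          rw [Finset.sum_add_distrib, Finset.mul_sum, Finset.mul_sum]
      _ ≤ _ := by
          apply add_le_add
          · apply mul_le_mul_of_nonneg_left hT1
            have : 0 ≤ tau s0 := by linarith
            positivity
          · apply mul_le_mul_of_nonneg_left hT0
            positivity
  refine hmain.trans ?_
  have hLA : (0 : ℝ) < L ^ A := by positivity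
  have f1 : 2 * (M * N) * K * tau s0 * L ^ (B1 + C) / L ^ B * (5 * L) ^ 4 ≤
      1250 * K * tau s0 * (M * N) / L ^ A := by
    rw [div_mul_eq_mul_div, div_le_div_iff₀ (by positivity) hLA]
    have : L ^ (B1 + C) * L ^ 4 * L ^ A ≤ L ^ B := by
      rw [← pow_add, ← pow_add]
      exact pow_le_pow_right₀ hL1 (by omega)
    have h0 : 0 ≤ 1250 * K * tau s0 * (M * N) := by
      have : 0 ≤ tau s0 := by linarith
      positivity
    calc 2 * (M * N) * K * tau s0 * L ^ (B1 + C) * (5 * L) ^ 4 * L ^ A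
        = 1250 * K * tau s0 * (M * N) * (L ^ (B1 + C) * L ^ 4 * L ^ A) := by ring
      _ ≤ 1250 * K * tau s0 * (M * N) * L ^ B := mul_le_mul_of_nonneg_left this h0
  have f2 : 910 * (M * N) * L ^ (C + 1) / L ^ B1 * (5 * L) ^ 2 ≤
      22750 * (M * N) / L ^ A := by
    rw [div_mul_eq_mul_div, div_le_div_iff₀ hLB1pos hLA]
    have : L ^ (C + 1) * L ^ 2 * L ^ A ≤ L ^ B1 := by
      rw [← pow_add, ← pow_add]
      exact pow_le_pow_right₀ hL1 (by omega)
    calc 910 * (M * N) * L ^ (C + 1) * (5 * L) ^ 2 * L ^ A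
        = 22750 * (M * N) * (L ^ (C + 1) * L ^ 2 * L ^ A) := by ring
      _ ≤ 22750 * (M * N) * L ^ B1 := mul_le_mul_of_nonneg_left this (by positivity)
  refine (add_le_add f1 f2).trans ?_
  rw [← add_div]
  apply div_le_div_of_nonneg_right _ hLA.le
  have hMN0 : 0 ≤ M * N := by positivity
  have g1 : 22750 * (M * N) ≤ 22750 * tau s0 * (M * N) := by
    apply mul_le_mul_of_nonneg_right _ hMN0
    linarith
  have g2 : 0 ≤ K * tau s0 * (M * N) := by
    have : 0 ≤ tau s0 := by linarith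
    positivity
  have g3 : 0 ≤ tau s0 * (M * N) := by
    have : 0 ≤ tau s0 := by linarith
    positivity
  nlinarith

end Pool.Agent.BV
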