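import Mathlib

set_option autoImplicit false

/-!
Bombieri-Vinogradov (part C2 of the project 246 -> 240, MP_3509fd_nt). Definitions.

`csum f X chi s` = sum over `1 <= n <= X`, `(n,s) = 1` of `f n * chi n`.
`bdisc a b X Y q c s` = discrepancy of the convolution `a * b` in the class `c` mod `q`, with the
extra condition `(mn, s) = 1`.
`ldisc x q c` = discrepancy of the von Mangoldt function on `(x, 2x]` in the class `c` mod `q`.
-/

namespace Pool.Agent.BV

open Finset

/-- number of divisors, as a real number -/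
noncomputable def tau (n : ℕ) : ℝ := (n.divisors.card : ℝ)

/-- character sum with coprimality condition -/
noncomputable def csum {q : ℕ} (f : ℕ → ℂ) (X : ℕ) (χ : DirichletCharacter ℂ q) (s : ℕ) : ℂ :=
  ∑ n ∈ Icc 1 X, if n.Coprime s then f n * χ (n : ZMod q) else 0

/-- the convolution in a residue class -/
noncomputable def bcls (α β : ℕ → ℂ) (X Y q c s : ℕ) : ℂ :=
  ∑ m ∈ Icc 1 X, ∑ n ∈ Icc 1 Y,
    if m * n ≡ c [MOD q] ∧ (m * n).Coprime s then α m * β n else 0

/-- the convolution over all reduced classes -/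
noncomputable def bcop (α β : ℕ → ℂ) (X Y q s : ℕ) : ℂ :=
  ∑ m ∈ Icc 1 X, ∑ n ∈ Icc 1 Y, if (m * n).Coprime (q * s) then α m * β n else 0

/-- the discrepancy of the convolution -/
noncomputable def bdisc (α β : ℕ → ℂ) (X Y q c s : ℕ) : ℂ :=
  bcls α β X Y q c s - bcop α β X Y q s / (q.totient : ℂ)

/-- restriction of a sequence to `(u, v]` -/
noncomputable def res (f : ℕ → ℂ) (u v : ℕ) (n : ℕ) : ℂ := if u < n ∧ n ≤ v then f n else 0

/-- `sum over b | m, b > z, of mu b` -/
noncomputable def gam (z m : ℕ) : ℂ :=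
  ∑ b ∈ m.divisors with z < b, ((ArithmeticFunction.moebius b : ℤ) : ℂ)

/-- `sum over b c = e, b <= z, c <= z, of mu b * Lambda c` -/
noncomputable def lam (z e : ℕ) : ℂ :=
  ∑ p ∈ e.divisorsAntidiagonal with p.1 ≤ z ∧ p.2 ≤ z,
    ((ArithmeticFunction.moebius p.1 : ℤ) : ℂ) * ((ArithmeticFunction.vonMangoldt p.2 : ℝ) : ℂ)

/-- the four sequences that occur after Vaughan's identity -/
noncomputable def ker (z : ℕ) (i : Fin 4) (n : ℕ) : ℂ :=
  match i with
  | 0 => ((ArithmeticFunction.vonMangoldt n : ℝ) : ℂ)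
  | 1 => gam z n
  | 2 => lam z n
  | 3 => 1

/-- the discrepancy of the von Mangoldt function on `(x, 2x]` -/
noncomputable def ldisc (x q c : ℕ) : ℝ :=
  (∑ n ∈ Ioc x (2 * x), if n ≡ c [MOD q] then ArithmeticFunction.vonMangoldt n else 0) -
    (∑ n ∈ Ioc x (2 * x), if n.Coprime q then ArithmeticFunction.vonMangoldt n else 0) /
      (q.totient : ℝ)

end Pool.Agent.BV
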