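import Pool.Agent.BV.SWc
import Pool.Agent.BV.Conv

set_option autoImplicit false

/-! Bombieri-Vinogradov for convolutions (final form). -/

namespace Pool.Agent.BV

open Finset
open scoped Classical

/-- **Bombieri-Vinogradov for convolutions**, with arbitrary classes, an additional coprimality
condition `s0`, and the Siegel-Walfisz condition in class form. -/
theorem bv_main (A C : ℕ) (K : ℕ → ℝ) (hK : ∀ j, 0 ≤ K j) :
    ∃ B : ℕ, ∃ C0 : ℝ, 0 < C0 ∧ ∀ (L M N : ℝ) (X Y Q s0 : ℕ) (α β : ℕ → ℂ),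
      3 ≤ L → 1 ≤ s0 → L ^ B ≤ M → L ^ B ≤ N → M * N ≤ Real.exp (8 * L) →
      (X : ℝ) ≤ 4 * M → (Y : ℝ) ≤ 4 * N → (Q : ℝ) * L ^ B ≤ Real.sqrt (M * N) →
      (∑ n ∈ Icc 1 X, ‖α n‖ ^ 2 ≤ M * L ^ C) → (∑ n ∈ Icc 1 Y, ‖β n‖ ^ 2 ≤ N * L ^ C) →
      SWc K L N β Y →
      ∀ c : ℕ → ℕ, (∀ q, (c q).Coprime q) →
        ∑ q ∈ Icc 1 Q, ‖bdisc α β X Y q (c q) s0‖ ≤ C0 * tau s0 * (M * N) / L ^ A := by
  obtain ⟨B, K0, hK0, H⟩ := bvc A C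
  refine ⟨B, K0 * (1 + K (2 * B)), by have := hK (2 * B); positivity, ?_⟩
  intro L M N X Y Q s0 α β hL hs hM hN hMN hX hY hQ hα hβ hSW c hc
  have hN0 : 0 ≤ N := le_trans (by positivity) hN
  exact H L (K (2 * B)) M N X Y Q s0 α β hL (hK _) hs hM hN hMN hX hY hQ hα hβ
    (SW_of_SWc K L N β Y B (by linarith) hN0 hK hSW) c hc

end Pool.Agent.BV
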