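import Pool.Agent.LS.Mult

set_option autoImplicit false

/-! The large sieve inequality (folder LS) in the shape used here. -/

namespace Pool.Agent.BV

open Finset
open scoped Classical

/-- helper61 (LS4). -/
theorem large_sieve (a : ℕ → ℂ) (M N Q : ℕ) :
    ∑ q ∈ Icc 1 Q, ((q : ℝ) / (q.totient : ℝ)) *
        ∑ χ : DirichletCharacter ℂ q with χ.IsPrimitive,
          ‖∑ n ∈ Ioc M (M + N), a n * χ (n : ZMod q)‖ ^ 2 ≤
      ((Q : ℝ) ^ 2 + 7 * N) * ∑ n ∈ Ioc M (M + N), ‖a n‖ ^ 2 :=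
  Pool.Agent.LS.mult_large_sieve Q M N a

end Pool.Agent.BV
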