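import Pool.Agent.BV.SumQ
import Pool.Agent.BV.LS

set_option autoImplicit false

/-! Large conductors, one dyadic block. -/

namespace Pool.Agent.BV

open Finset
open scoped Classical

lemma LARGE_csum {q : ℕ} (f : ℕ → ℂ) (X : ℕ) (χ : DirichletCharacter ℂ q) (s : ℕ) :
    csum f X χ s
      = ∑ n ∈ Ioc 0 (0 + X), (if n.Coprime s then f n else 0) * χ (n : ZMod q) := by
  unfold csum
  have h : Icc 1 X = Ioc 0 (0 + X) := by
    ext n
    simp only [Finset.mem_Icc, Finset.mem_Ioc]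
    omega
  rw [h]
  refine Finset.sum_congr rfl fun n _ => ?_
  split_ifs <;> simp

lemma LARGE_sq (f : ℕ → ℂ) (X s : ℕ) :
    ∑ n ∈ Ioc 0 (0 + X), ‖(if n.Coprime s then f n else 0)‖ ^ 2
      ≤ ∑ n ∈ Icc 1 X, ‖f n‖ ^ 2 := by
  have h : Icc 1 X = Ioc 0 (0 + X) := by
    ext n
    simp only [Finset.mem_Icc, Finset.mem_Ioc]
    omega
  rw [h]
  refine Finset.sum_le_sum fun n _ => ?_
  split_ifs
  · exact le_rfl
  · simp

/-- One dyadic block `F < f <= 2 F`: `1/phi f <= (1/F) f/phi f`, Cauchy-Schwarz over `(f, psi)`,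
`large_sieve` with `M = 0` for `n -> if n.Coprime s then alpha n else 0`. -/
theorem PS_dyadic (α β : ℕ → ℂ) (X Y F s : ℕ) (hF : 1 ≤ F) :
    PS α β X Y F (2 * F) s ≤ (1 / (F : ℝ)) *
      Real.sqrt ((4 * (F : ℝ) ^ 2 + 7 * X) * ∑ n ∈ Icc 1 X, ‖α n‖ ^ 2) *
      Real.sqrt ((4 * (F : ℝ) ^ 2 + 7 * Y) * ∑ n ∈ Icc 1 Y, ‖β n‖ ^ 2) := by
  have hFR : (0:ℝ) < F := by exact_mod_cast hF
  have hls := Pool.Agent.LS.bilinear_large_sieve (2 * F) 0 X 0 Y
    (fun n => if n.Coprime s then α n else 0) (fun n => if n.Coprime s then β n else 0)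
  have h1 : PS α β X Y F (2 * F) s ≤ (1 / (F : ℝ)) *
      ∑ q ∈ Icc 1 (2 * F), ((q : ℝ) / q.totient)
        * ∑ χ ∈ Pool.Agent.LS.prim q,
          ‖∑ m ∈ Ioc 0 (0 + X), (if m.Coprime s then α m else 0) * χ (m : ZMod q)‖
            * ‖∑ n ∈ Ioc 0 (0 + Y), (if n.Coprime s then β n else 0) * χ (n : ZMod q)‖ := by
    unfold PS
    rw [Finset.mul_sum]
    refine le_trans ?_ (Finset.sum_le_sum_of_subset_of_nonneg
      (s := Ioc F (2 * F)) ?_ (fun q _ _ => ?_))
    · refine Finset.sum_le_sum fun q hq => ?_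
      rw [Finset.mem_Ioc] at hq
      have hqF : (F : ℝ) ≤ q := by exact_mod_cast hq.1.le
      have hφ : (0:ℝ) < q.totient := by
        exact_mod_cast Nat.totient_pos.mpr (by omega)
      simp only [LARGE_csum]
      rw [← mul_assoc]
      refine mul_le_mul_of_nonneg_right ?_
        (Finset.sum_nonneg fun χ _ => by positivity)
      rw [div_mul_div_comm, one_mul, div_le_div_iff₀ hφ (mul_pos hFR hφ)]
      nlinarith
    · intro q hq
      rw [Finset.mem_Ioc] at hq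
      rw [Finset.mem_Icc]
      omega
    · exact mul_nonneg (by positivity) (mul_nonneg (by positivity)
        (Finset.sum_nonneg fun χ _ => by positivity))
  refine h1.trans ?_
  rw [mul_assoc]
  refine mul_le_mul_of_nonneg_left (hls.trans ?_) (by positivity)
  have e1 : (((2 * F : ℕ) : ℝ)) ^ 2 = 4 * (F : ℝ) ^ 2 := by push_cast; ring
  rw [e1]
  refine mul_le_mul (Real.sqrt_le_sqrt ?_) (Real.sqrt_le_sqrt ?_) (Real.sqrt_nonneg _)
    (Real.sqrt_nonneg _)
  · exact mul_le_mul_of_nonneg_left (LARGE_sq α X s) (by positivity)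
  · exact mul_le_mul_of_nonneg_left (LARGE_sq β Y s) (by positivity)

end Pool.Agent.BV
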