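import Pool.Agent.BV.Large

set_option autoImplicit false

/-! Large conductors. -/

namespace Pool.Agent.BV

open Finset
open scoped Classical

lemma LARGEB_nonneg {α β : ℕ → ℂ} {X Y s : ℕ} (f : ℕ) :
    0 ≤ (1 / (f.totient : ℝ)) * ∑ ψ : DirichletCharacter ℂ f with ψ.IsPrimitive,
      ‖csum α X ψ s‖ * ‖csum β Y ψ s‖ :=
  mul_nonneg (by positivity) (Finset.sum_nonneg fun χ _ => by positivity)

lemma LARGEB_split (α β : ℕ → ℂ) (X Y D Q s : ℕ) :
    PS α β X Y D Q s ≤ PS α β X Y D (2 * D) s + PS α β X Y (2 * D) Q s := by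
  have hdis : Disjoint (Ioc D (2 * D)) (Ioc (2 * D) Q) := by
    rw [Finset.disjoint_left]
    intro f hf hf'
    rw [Finset.mem_Ioc] at hf hf'
    omega
  unfold PS
  rw [← Finset.sum_union hdis]
  refine Finset.sum_le_sum_of_subset_of_nonneg ?_ (fun f _ _ => LARGEB_nonneg f)
  intro f hf
  rw [Finset.mem_union, Finset.mem_Ioc, Finset.mem_Ioc]
  rw [Finset.mem_Ioc] at hf
  omega

lemma LARGEB_sqrt (x y a b d : ℝ) (hx : 0 ≤ x) (hy : 0 ≤ y) (ha : 0 ≤ a) (hb : 0 ≤ b)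
    (hd : 1 ≤ d) :
    (1 / d) * Real.sqrt ((4 * d ^ 2 + 7 * x) * a) * Real.sqrt ((4 * d ^ 2 + 7 * y) * b)
      ≤ 10 * (d + Real.sqrt x + Real.sqrt y + Real.sqrt (x * y) / d)
        * Real.sqrt a * Real.sqrt b := by
  have hd0 : 0 < d := by linarith
  have key : ∀ z : ℝ, 0 ≤ z → Real.sqrt (4 * d ^ 2 + 7 * z) ≤ 2 * d + 3 * Real.sqrt z := by
    intro z hz
    have h1 := Real.sqrt_nonneg z
    have h2 := Real.sq_sqrt hz
    apply Real.sqrt_le_iff.mpr
    constructor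
    · positivity
    · nlinarith [mul_nonneg hd0.le h1]
  rw [Real.sqrt_mul (by positivity), Real.sqrt_mul (by positivity), Real.sqrt_mul hx]
  have h1 : (1 / d) * (2 * d + 3 * Real.sqrt x) * (2 * d + 3 * Real.sqrt y)
      ≤ 10 * (d + Real.sqrt x + Real.sqrt y + Real.sqrt x * Real.sqrt y / d) := by
    have e1 : (1 / d) * (2 * d + 3 * Real.sqrt x) * (2 * d + 3 * Real.sqrt y)
        = 4 * d + 6 * Real.sqrt x + 6 * Real.sqrt y + 9 * (Real.sqrt x * Real.sqrt y / d) := by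
      field_simp
      ring
    rw [e1]
    have h3 := Real.sqrt_nonneg x
    have h4 := Real.sqrt_nonneg y
    have h5 : 0 ≤ Real.sqrt x * Real.sqrt y / d := by positivity
    linarith
  have h2 : (1 / d) * Real.sqrt (4 * d ^ 2 + 7 * x) * Real.sqrt (4 * d ^ 2 + 7 * y)
      ≤ (1 / d) * (2 * d + 3 * Real.sqrt x) * (2 * d + 3 * Real.sqrt y) := by
    refine mul_le_mul (mul_le_mul_of_nonneg_left (key x hx) (by positivity)) (key y hy)
      (Real.sqrt_nonneg _) (by positivity)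
  calc (1 / d) * (Real.sqrt (4 * d ^ 2 + 7 * x) * Real.sqrt a)
        * (Real.sqrt (4 * d ^ 2 + 7 * y) * Real.sqrt b)
      = ((1 / d) * Real.sqrt (4 * d ^ 2 + 7 * x) * Real.sqrt (4 * d ^ 2 + 7 * y))
        * (Real.sqrt a * Real.sqrt b) := by ring
    _ ≤ (10 * (d + Real.sqrt x + Real.sqrt y + Real.sqrt x * Real.sqrt y / d))
        * (Real.sqrt a * Real.sqrt b) :=
        mul_le_mul_of_nonneg_right (h2.trans h1) (by positivity)
    _ = _ := by ring

lemma LARGEB_ind (α β : ℕ → ℂ) (X Y Q s : ℕ) : ∀ k D : ℕ, 1 ≤ D → Q < 2 ^ k * D →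
    PS α β X Y D Q s ≤ 10 * (k : ℝ) *
      ((Q : ℝ) + Real.sqrt X + Real.sqrt Y + Real.sqrt ((X : ℝ) * Y) / D) *
      Real.sqrt (∑ n ∈ Icc 1 X, ‖α n‖ ^ 2) * Real.sqrt (∑ n ∈ Icc 1 Y, ‖β n‖ ^ 2) := by
  have hempty : ∀ D : ℕ, Q ≤ D → PS α β X Y D Q s = 0 := by
    intro D hD
    unfold PS
    rw [Finset.Ioc_eq_empty (by omega), Finset.sum_empty]
  set A := Real.sqrt (∑ n ∈ Icc 1 X, ‖α n‖ ^ 2) with hA
  set B := Real.sqrt (∑ n ∈ Icc 1 Y, ‖β n‖ ^ 2) with hB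
  have hA0 : 0 ≤ A := Real.sqrt_nonneg _
  have hB0 : 0 ≤ B := Real.sqrt_nonneg _
  intro k
  induction k with
  | zero =>
    intro D hD hQ
    rw [hempty D (by simp at hQ; omega)]
    simp
  | succ k ih =>
    intro D hD hQ
    rcases Nat.lt_or_ge D Q with hDQ | hDQ
    · have hDR : (1:ℝ) ≤ D := by exact_mod_cast hD
      have hDQR : (D:ℝ) ≤ Q := by exact_mod_cast hDQ.le
      have h1 := PS_dyadic α β X Y D s hD
      have h2 := LARGEB_sqrt X Y (∑ n ∈ Icc 1 X, ‖α n‖ ^ 2) (∑ n ∈ Icc 1 Y, ‖β n‖ ^ 2) D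
        (by positivity) (by positivity) (Finset.sum_nonneg fun n _ => by positivity)
        (Finset.sum_nonneg fun n _ => by positivity) hDR
      have h3 := ih (2 * D) (by omega) (by rw [pow_succ] at hQ; linarith)
      have hs : 0 ≤ Real.sqrt ((X : ℝ) * Y) := Real.sqrt_nonneg _
      have h4 : Real.sqrt ((X : ℝ) * Y) / ((2 * D : ℕ) : ℝ) ≤ Real.sqrt ((X : ℝ) * Y) / D := by
        apply div_le_div_of_nonneg_left hs (by linarith)
        push_cast
        linarith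
      have h5 : PS α β X Y D (2 * D) s ≤ 10 *
          ((Q : ℝ) + Real.sqrt X + Real.sqrt Y + Real.sqrt ((X : ℝ) * Y) / D) * A * B := by
        refine (h1.trans h2).trans ?_
        refine mul_le_mul_of_nonneg_right (mul_le_mul_of_nonneg_right ?_ hA0) hB0
        linarith
      have h6 : PS α β X Y (2 * D) Q s ≤ 10 * (k : ℝ) *
          ((Q : ℝ) + Real.sqrt X + Real.sqrt Y + Real.sqrt ((X : ℝ) * Y) / D) * A * B := by
        refine h3.trans ?_
        refine mul_le_mul_of_nonneg_right (mul_le_mul_of_nonneg_right ?_ hA0) hB0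
        refine mul_le_mul_of_nonneg_left ?_ (by positivity)
        linarith
      calc PS α β X Y D Q s ≤ PS α β X Y D (2 * D) s + PS α β X Y (2 * D) Q s :=
            LARGEB_split α β X Y D Q s
        _ ≤ _ := add_le_add h5 h6
        _ = _ := by push_cast; ring
    · rw [hempty D hDQ]
      positivity

/-- Sum of `PS_dyadic` over `F = 2^j D`, `j <= log2 Q`:
`sqrt (4 F^2 + 7 X) sqrt (4 F^2 + 7 Y) / F <= 4 F + 6 sqrt X + 6 sqrt Y + 7 sqrt (X Y) / F`. -/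
theorem PS_large (α β : ℕ → ℂ) (X Y D Q s : ℕ) (hD : 1 ≤ D) :
    PS α β X Y D Q s ≤ 10 * (Nat.log 2 Q + 1) *
      ((Q : ℝ) + Real.sqrt X + Real.sqrt Y + Real.sqrt ((X : ℝ) * Y) / D) *
      Real.sqrt (∑ n ∈ Icc 1 X, ‖α n‖ ^ 2) * Real.sqrt (∑ n ∈ Icc 1 Y, ‖β n‖ ^ 2) := by
  have h1 : Q < 2 ^ (Nat.log 2 Q + 1) := Nat.lt_pow_succ_log_self (by norm_num) Q
  have h2 : Q < 2 ^ (Nat.log 2 Q + 1) * D :=
    lt_of_lt_of_le h1 (Nat.le_mul_of_pos_right _ hD)
  have h3 := LARGEB_ind α β X Y Q s (Nat.log 2 Q + 1) D hD h2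
  push_cast at h3
  exact h3

end Pool.Agent.BV
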