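import Pool.Agent.BV.Defs

set_option autoImplicit false

/-! Orthogonality of characters. -/

namespace Pool.Agent.BV

open Finset
open scoped Classical

private theorem orth_pt (α β : ℕ → ℂ) (q c s m n : ℕ) (hq : 1 ≤ q) (hc : c.Coprime q) :
    (if m * n ≡ c [MOD q] ∧ (m * n).Coprime s then α m * β n else 0) =
      (1 / (q.totient : ℂ)) * ∑ χ : DirichletCharacter ℂ q, χ ((c : ZMod q)⁻¹) *
        ((if m.Coprime s then α m * χ (m : ZMod q) else 0) *
          (if n.Coprime s then β n * χ (n : ZMod q) else 0)) := by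
  have : NeZero q := ⟨by omega⟩
  have hφ : (q.totient : ℂ) ≠ 0 := by
    have : 0 < q.totient := Nat.totient_pos.2 (by omega)
    exact_mod_cast this.ne'
  have hu : IsUnit (c : ZMod q) := (ZMod.isUnit_iff_coprime c q).2 hc
  by_cases hm : m.Coprime s
  · by_cases hn : n.Coprime s
    · have hmn : (m * n).Coprime s := Nat.Coprime.mul_left hm hn
      simp_rw [if_pos hm, if_pos hn]
      have h1 := DirichletCharacter.sum_char_inv_mul_char_eq ℂ hu ((m * n : ℕ) : ZMod q)
      have h2 : ∑ χ : DirichletCharacter ℂ q, χ ((c : ZMod q)⁻¹) *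
          (α m * χ (m : ZMod q) * (β n * χ (n : ZMod q))) =
          (α m * β n) * ∑ χ : DirichletCharacter ℂ q,
            χ ((c : ZMod q)⁻¹) * χ ((m * n : ℕ) : ZMod q) := by
        rw [Finset.mul_sum]
        refine Finset.sum_congr rfl (fun χ _ => ?_)
        rw [Nat.cast_mul, map_mul]
        ring
      rw [h2, h1]
      by_cases h3 : m * n ≡ c [MOD q]
      · have h4 : (c : ZMod q) = ((m * n : ℕ) : ZMod q) :=
          (ZMod.natCast_eq_natCast_iff _ _ _).2 h3.symm
        rw [if_pos ⟨h3, hmn⟩, if_pos h4]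
        field_simp
      · have h4 : ¬ (c : ZMod q) = ((m * n : ℕ) : ZMod q) := fun h =>
          h3 ((ZMod.natCast_eq_natCast_iff _ _ _).1 h).symm
        rw [if_neg (fun h => h3 h.1), if_neg h4]
        simp
    · have hmn : ¬ (m * n).Coprime s := fun h => hn (Nat.Coprime.coprime_mul_left h)
      rw [if_neg (fun h => hmn h.2)]
      simp_rw [if_neg hn]
      simp
  · have hmn : ¬ (m * n).Coprime s := fun h => hm (Nat.Coprime.coprime_mul_right h)
    rw [if_neg (fun h => hmn h.2)]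
    simp_rw [if_neg hm]
    simp

private theorem orth_bcls (α β : ℕ → ℂ) (X Y q c s : ℕ) (hq : 1 ≤ q) (hc : c.Coprime q) :
    bcls α β X Y q c s = (1 / (q.totient : ℂ)) * ∑ χ : DirichletCharacter ℂ q,
      χ ((c : ZMod q)⁻¹) * (csum α X χ s * csum β Y χ s) := by
  unfold bcls csum
  have h1 : ∀ m ∈ Icc 1 X, (∑ n ∈ Icc 1 Y,
      if m * n ≡ c [MOD q] ∧ (m * n).Coprime s then α m * β n else 0) =
      ∑ n ∈ Icc 1 Y, (1 / (q.totient : ℂ)) * ∑ χ : DirichletCharacter ℂ q, χ ((c : ZMod q)⁻¹) *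
        ((if m.Coprime s then α m * χ (m : ZMod q) else 0) *
          (if n.Coprime s then β n * χ (n : ZMod q) else 0)) := fun m _ =>
    Finset.sum_congr rfl (fun n _ => orth_pt α β q c s m n hq hc)
  rw [Finset.sum_congr rfl h1]
  simp_rw [← Finset.mul_sum]
  congr 1
  rw [Finset.sum_congr rfl (fun m _ => Finset.sum_comm), Finset.sum_comm]
  refine Finset.sum_congr rfl (fun χ _ => ?_)
  rw [Finset.sum_mul_sum, Finset.mul_sum]
  refine Finset.sum_congr rfl (fun m _ => ?_)
  rw [Finset.mul_sum]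

private theorem orth_bcop (α β : ℕ → ℂ) (X Y q s : ℕ) (hq : 1 ≤ q) :
    bcop α β X Y q s = csum α X (1 : DirichletCharacter ℂ q) s *
      csum β Y (1 : DirichletCharacter ℂ q) s := by
  have : NeZero q := ⟨by omega⟩
  unfold bcop csum
  rw [Finset.sum_mul_sum]
  refine Finset.sum_congr rfl (fun m _ => Finset.sum_congr rfl (fun n _ => ?_))
  have h1 : ∀ k : ℕ, (1 : DirichletCharacter ℂ q) (k : ZMod q) =
      if k.Coprime q then 1 else 0 := by
    intro k
    by_cases hk : k.Coprime q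
    · rw [if_pos hk]
      exact MulChar.one_apply ((ZMod.isUnit_iff_coprime k q).2 hk)
    · rw [if_neg hk]
      exact MulChar.map_nonunit _ (fun h => hk ((ZMod.isUnit_iff_coprime k q).1 h))
  rw [h1, h1]
  have h2 : (m * n).Coprime (q * s) ↔ (m.Coprime s ∧ n.Coprime s) ∧ (m.Coprime q ∧ n.Coprime q) := by
    rw [Nat.coprime_mul_iff_right, Nat.coprime_mul_iff_left, Nat.coprime_mul_iff_left]
    tauto
  by_cases a1 : m.Coprime s
  · by_cases a2 : n.Coprime s
    · by_cases a3 : m.Coprime q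
      · by_cases a4 : n.Coprime q
        · rw [if_pos (h2.2 ⟨⟨a1, a2⟩, a3, a4⟩), if_pos a1, if_pos a2, if_pos a3, if_pos a4]
          ring
        · rw [if_neg (fun h => a4 (h2.1 h).2.2), if_neg a4]
          simp
      · rw [if_neg (fun h => a3 (h2.1 h).2.1), if_neg a3]
        simp
    · rw [if_neg (fun h => a2 (h2.1 h).1.2), if_neg a2]
      simp
  · rw [if_neg (fun h => a1 (h2.1 h).1.1), if_neg a1]
    simp

/-- For `(c,q) = 1`: `1_(mn = c mod q) = 1/phi q * sum over chi of chi c⁻¹ chi m chi n`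
(`DirichletCharacter.sum_char_inv_mul_char_eq`); the principal character gives `bcop / phi q`. -/
theorem bdisc_le (α β : ℕ → ℂ) (X Y q c s : ℕ) (hq : 1 ≤ q) (hc : c.Coprime q) :
    ‖bdisc α β X Y q c s‖ ≤
      (1 / (q.totient : ℝ)) * ∑ χ : DirichletCharacter ℂ q with χ ≠ 1,
        ‖csum α X χ s‖ * ‖csum β Y χ s‖ := by
  have : NeZero q := ⟨by omega⟩
  have hu : IsUnit ((c : ZMod q)⁻¹) := by
    have h1 : IsUnit (c : ZMod q) := (ZMod.isUnit_iff_coprime c q).2 hc
    obtain ⟨u, hu⟩ := h1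
    rw [← hu, ZMod.inv_coe_unit]
    exact (u⁻¹).isUnit
  have h1 : bdisc α β X Y q c s = (1 / (q.totient : ℂ)) *
      ∑ χ : DirichletCharacter ℂ q with χ ≠ 1,
        χ ((c : ZMod q)⁻¹) * (csum α X χ s * csum β Y χ s) := by
    unfold bdisc
    rw [orth_bcls α β X Y q c s hq hc, orth_bcop α β X Y q s hq]
    rw [← Finset.add_sum_erase Finset.univ _ (Finset.mem_univ (1 : DirichletCharacter ℂ q))]
    rw [MulChar.one_apply hu, one_mul]
    have h2 : (Finset.univ.erase (1 : DirichletCharacter ℂ q)) =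
        Finset.univ.filter (fun χ => χ ≠ 1) := by
      ext χ; simp
    rw [h2]
    ring
  rw [h1, norm_mul]
  have h3 : ‖(1 / (q.totient : ℂ))‖ = 1 / (q.totient : ℝ) := by
    rw [norm_div, norm_one, Complex.norm_natCast]
  rw [h3]
  refine mul_le_mul_of_nonneg_left ?_ (by positivity)
  have h6 : ∀ χ : DirichletCharacter ℂ q, ‖χ ((c : ZMod q)⁻¹) * (csum α X χ s * csum β Y χ s)‖ ≤
      ‖csum α X χ s‖ * ‖csum β Y χ s‖ := by
    intro χ
    rw [norm_mul, norm_mul]
    have h4 := DirichletCharacter.norm_le_one χ ((c : ZMod q)⁻¹)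
    have h5 : 0 ≤ ‖csum α X χ s‖ * ‖csum β Y χ s‖ := by positivity
    calc ‖χ ((c : ZMod q)⁻¹)‖ * (‖csum α X χ s‖ * ‖csum β Y χ s‖)
        ≤ 1 * (‖csum α X χ s‖ * ‖csum β Y χ s‖) := mul_le_mul_of_nonneg_right h4 h5
      _ = ‖csum α X χ s‖ * ‖csum β Y χ s‖ := one_mul _
  refine ((norm_sum_le _ _).trans (Finset.sum_le_sum (fun χ _ => h6 χ))).trans (le_of_eq ?_)
  refine Finset.sum_congr ?_ (fun _ _ => rfl)
  ext χ
  simp only [Finset.mem_filter, Finset.mem_univ]

end Pool.Agent.BV
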