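import Pool.Agent.BV.Defs

set_option autoImplicit false

/-! Reduction to primitive characters. -/

namespace Pool.Agent.BV

open Finset
open scoped Classical

/-- `chi` is induced by its primitive character `psi` mod `f = conductor chi`, `f | q`, and for
natural `n`: `(n,q) = 1` iff `(n,f) = 1` and `(n,q/f) = 1`; `psi n = 0` if `(n,f) > 1`. -/
theorem csum_primitive (f : ℕ → ℂ) (X q s : ℕ) (hq : 1 ≤ q) (χ : DirichletCharacter ℂ q) :
    csum f X χ s = csum f X χ.primitiveCharacter (s * (q / χ.conductor)) := by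
  have hd : χ.conductor ∣ q := χ.conductor_dvd_level
  have hqe : χ.conductor * (q / χ.conductor) = q := Nat.mul_div_cancel' hd
  unfold csum
  refine sum_congr rfl fun n _ => ?_
  by_cases hn : n.Coprime q
  · have h1 : n.Coprime (q / χ.conductor) :=
      Nat.Coprime.coprime_dvd_right (Nat.div_dvd_of_dvd hd) hn
    have h2 : n.Coprime (s * (q / χ.conductor)) ↔ n.Coprime s := by
      rw [Nat.coprime_mul_iff_right]
      exact ⟨fun h => h.1, fun h => ⟨h, h1⟩⟩
    have h3 : χ.primitiveCharacter (n : ZMod χ.conductor) = χ (n : ZMod q) := by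
      have hc : IsCoprime (n : ℤ) (q : ℤ) := Nat.isCoprime_iff_coprime.mpr hn
      have := χ.primitiveCharacter_apply_of_isCoprime hc
      simpa using this
    by_cases hs : n.Coprime s
    · rw [if_pos hs, if_pos (h2.mpr hs), h3]
    · rw [if_neg hs, if_neg (fun h => hs (h2.mp h))]
  · have h1 : χ (n : ZMod q) = 0 :=
      χ.map_nonunit (fun h => hn ((ZMod.isUnit_iff_coprime n q).mp h))
    rw [h1]
    simp only [mul_zero, ite_self]
    by_cases hs : n.Coprime (s * (q / χ.conductor))
    · rw [if_pos hs]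
      have h2 : ¬ n.Coprime χ.conductor := by
        intro h
        apply hn
        rw [← hqe]
        exact Nat.Coprime.mul_right h (Nat.coprime_mul_iff_right.mp hs).2
      have h3 : χ.primitiveCharacter (n : ZMod χ.conductor) = 0 :=
        χ.primitiveCharacter.map_nonunit
          (fun h => h2 ((ZMod.isUnit_iff_coprime n χ.conductor).mp h))
      rw [h3, mul_zero]
    · rw [if_neg hs]

/-- `chi -> (conductor, primitive character)` is injective; `chi <> 1` iff conductor `<> 1`. -/
theorem sum_primitive (α β : ℕ → ℂ) (X Y q s : ℕ) (hq : 1 ≤ q) :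
    ∑ χ : DirichletCharacter ℂ q with χ ≠ 1, ‖csum α X χ s‖ * ‖csum β Y χ s‖ ≤
      ∑ f ∈ q.divisors.erase 1, ∑ ψ : DirichletCharacter ℂ f with ψ.IsPrimitive,
        ‖csum α X ψ (s * (q / f))‖ * ‖csum β Y ψ (s * (q / f))‖ := by
  have : NeZero q := ⟨by omega⟩
  rw [Finset.sum_sigma']
  set B := (q.divisors.erase 1).sigma
    (fun f => univ.filter (fun ψ : DirichletCharacter ℂ f => ψ.IsPrimitive)) with hB
  let i : DirichletCharacter ℂ q → (Σ f : ℕ, DirichletCharacter ℂ f) :=
    fun χ => ⟨χ.conductor, χ.primitiveCharacter⟩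
  let g : (Σ f : ℕ, DirichletCharacter ℂ f) → DirichletCharacter ℂ q :=
    fun x => if h : x.1 ∣ q then DirichletCharacter.changeLevel h x.2 else 1
  have hgi : ∀ χ, g (i χ) = χ := by
    intro χ
    show (if h : χ.conductor ∣ q then
      DirichletCharacter.changeLevel h χ.primitiveCharacter else 1) = χ
    rw [dif_pos χ.conductor_dvd_level]
    exact χ.changeLevel_primitiveCharacter
  have hinj : Function.Injective i := Function.LeftInverse.injective hgi
  let G : (Σ f : ℕ, DirichletCharacter ℂ f) → ℝ :=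
    fun x => ‖csum α X x.2 (s * (q / x.1))‖ * ‖csum β Y x.2 (s * (q / x.1))‖
  have key : ∀ χ : DirichletCharacter ℂ q,
      ‖csum α X χ s‖ * ‖csum β Y χ s‖ = G (i χ) := by
    intro χ
    show _ = ‖csum α X χ.primitiveCharacter (s * (q / χ.conductor))‖ *
      ‖csum β Y χ.primitiveCharacter (s * (q / χ.conductor))‖
    rw [← csum_primitive α X q s hq χ, ← csum_primitive β Y q s hq χ]
  have main : ∀ A : Finset (DirichletCharacter ℂ q), (∀ χ ∈ A, χ ≠ 1) →
      ∑ χ ∈ A, ‖csum α X χ s‖ * ‖csum β Y χ s‖ ≤ ∑ x ∈ B, G x := by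
    intro A hA
    rw [Finset.sum_congr rfl (fun χ _ => key χ),
      ← Finset.sum_image (f := G) (g := i) (fun a _ b _ h => hinj h)]
    refine Finset.sum_le_sum_of_subset_of_nonneg ?_ (fun x _ _ => by positivity)
    intro x hx
    rw [Finset.mem_image] at hx
    obtain ⟨χ, hχ, rfl⟩ := hx
    have hχ1 := hA χ hχ
    rw [hB, Finset.mem_sigma, Finset.mem_erase, Finset.mem_filter]
    refine ⟨⟨?_, Nat.mem_divisors.mpr ⟨χ.conductor_dvd_level, by omega⟩⟩,
      Finset.mem_univ _, χ.primitiveCharacter_isPrimitive⟩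
    exact fun h => hχ1 ((χ.eq_one_iff_conductor_eq_one).mpr h)
  exact main _ (fun χ hχ => by
    simp only [Finset.mem_filter, Finset.mem_univ, true_and] at hχ
    exact hχ)

end Pool.Agent.BV
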