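import Pool.Agent.BV.Small

set_option autoImplicit false

/-! The Siegel-Walfisz condition in residue class form. -/

namespace Pool.Agent.BV

open Finset
open scoped Classical

/-- Siegel-Walfisz condition in class form (helper18): `L = log x`. -/
def SWc (K : ℕ → ℝ) (L N : ℝ) (β : ℕ → ℂ) (Y : ℕ) : Prop :=
  ∀ j r s b : ℕ, 1 ≤ r → 1 ≤ s → b.Coprime r →
    ‖(∑ n ∈ Icc 1 Y, if n ≡ b [MOD r] ∧ n.Coprime s then β n else 0) -
      (∑ n ∈ Icc 1 Y, if n.Coprime (r * s) then β n else 0) / (r.totient : ℂ)‖ ≤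
        K j * tau s * N / L ^ j

namespace SWCAux

theorem sum_range_char {f : ℕ} (hf : 1 < f) (ψ : DirichletCharacter ℂ f) (hψ : ψ.IsPrimitive) :
    ∑ b ∈ range f, ψ ((b : ℕ) : ZMod f) = 0 := by
  have hne : ψ ≠ 1 := by
    intro h
    have h1 : ψ.conductor = f := hψ
    have : NeZero f := ⟨by omega⟩
    rw [h, DirichletCharacter.conductor_one] at h1
    omega
  obtain ⟨m, rfl⟩ : ∃ m, f = m + 1 := ⟨f - 1, by omega⟩
  rw [Finset.sum_range (fun b => ψ ((b : ℕ) : ZMod (m + 1)))]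
  have h2 : ∀ i : Fin (m + 1), ψ (((i : ℕ)) : ZMod (m + 1)) = ψ (show ZMod (m + 1) from i) := by
    intro i
    have h4 : (((i : ℕ)) : ZMod (m + 1)) = (show ZMod (m + 1) from i) := Fin.cast_val_eq_self i
    rw [h4]
  rw [Finset.sum_congr rfl fun i _ => h2 i]
  exact MulChar.sum_eq_zero_of_ne_one hne

theorem char_eq_sum {f : ℕ} (hf : 1 < f) (ψ : DirichletCharacter ℂ f) (n : ℕ) :
    ψ (n : ZMod f) = ∑ b ∈ range f, if n ≡ b [MOD f] then ψ ((b : ℕ) : ZMod f) else 0 := by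
  rw [Finset.sum_eq_single (n % f)]
  · rw [if_pos (Nat.mod_modEq n f).symm, ZMod.natCast_mod]
  · intro b hb hne
    rw [Finset.mem_range] at hb
    rw [if_neg]
    intro h
    apply hne
    have h1 : n % f = b % f := h
    rw [Nat.mod_eq_of_lt hb] at h1
    exact h1.symm
  · intro h
    exfalso
    apply h
    rw [Finset.mem_range]
    exact Nat.mod_lt _ (by omega)

theorem csum_eq {f : ℕ} (hf : 1 < f) (ψ : DirichletCharacter ℂ f) (β : ℕ → ℂ) (Y s : ℕ) :
    csum β Y ψ s = ∑ b ∈ range f, ψ ((b : ℕ) : ZMod f) *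
      ∑ n ∈ Icc 1 Y, if n ≡ b [MOD f] ∧ n.Coprime s then β n else 0 := by
  unfold csum
  have h1 : ∀ n ∈ Icc 1 Y, (if n.Coprime s then β n * ψ (n : ZMod f) else 0) =
      ∑ b ∈ range f, ψ ((b : ℕ) : ZMod f) *
        (if n ≡ b [MOD f] ∧ n.Coprime s then β n else 0) := by
    intro n _
    by_cases hn : n.Coprime s
    · rw [if_pos hn, char_eq_sum hf, Finset.mul_sum]
      refine Finset.sum_congr rfl fun b _ => ?_
      by_cases hb : n ≡ b [MOD f]
      · rw [if_pos hb, if_pos ⟨hb, hn⟩]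
        ring
      · rw [if_neg hb, if_neg (fun h => hb h.1)]
        ring
    · rw [if_neg hn]
      symm
      refine Finset.sum_eq_zero fun b _ => ?_
      rw [if_neg (fun h => hn h.2), mul_zero]
  rw [Finset.sum_congr rfl h1, Finset.sum_comm]
  refine Finset.sum_congr rfl fun b _ => ?_
  rw [Finset.mul_sum]

end SWCAux

open SWCAux

/-- `csum beta Y psi s = sum over b mod f of psi b * (class sum of b)`; the sum of `psi b` is `0`,
so the class sums may be replaced by their discrepancies; there are at most `f <= L^B` classes. -/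
theorem SW_of_SWc (K : ℕ → ℝ) (L N : ℝ) (β : ℕ → ℂ) (Y B : ℕ) (hL : 1 ≤ L) (hN : 0 ≤ N)
    (hK : ∀ j, 0 ≤ K j) (h : SWc K L N β Y) :
    SW β Y N L (K (2 * B)) B := by
  intro f hf hfL ψ hψ s hs
  have hL0 : 0 < L := by linarith
  set T : ℂ := (∑ n ∈ Icc 1 Y, if n.Coprime (f * s) then β n else 0) / (f.totient : ℂ) with hT
  set E : ℝ := K (2 * B) * tau s * N / L ^ (2 * B) with hE
  have hE0 : 0 ≤ E := div_nonneg (mul_nonneg (mul_nonneg (hK _) (Nat.cast_nonneg _)) hN)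
    (pow_nonneg hL0.le _)
  have h1 : csum β Y ψ s = ∑ b ∈ range f, ψ ((b : ℕ) : ZMod f) *
      ((∑ n ∈ Icc 1 Y, if n ≡ b [MOD f] ∧ n.Coprime s then β n else 0) - T) := by
    rw [csum_eq hf]
    have h2 : ∑ b ∈ range f, ψ ((b : ℕ) : ZMod f) *
        ((∑ n ∈ Icc 1 Y, if n ≡ b [MOD f] ∧ n.Coprime s then β n else 0) - T) =
        ∑ b ∈ range f, ψ ((b : ℕ) : ZMod f) *
          (∑ n ∈ Icc 1 Y, if n ≡ b [MOD f] ∧ n.Coprime s then β n else 0) -
        (∑ b ∈ range f, ψ ((b : ℕ) : ZMod f)) * T := by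
      rw [Finset.sum_mul, ← Finset.sum_sub_distrib]
      refine Finset.sum_congr rfl fun b _ => ?_
      ring
    rw [h2, sum_range_char hf ψ hψ, zero_mul, sub_zero]
  rw [h1]
  have h3 : ∀ b ∈ range f, ‖ψ ((b : ℕ) : ZMod f) *
      ((∑ n ∈ Icc 1 Y, if n ≡ b [MOD f] ∧ n.Coprime s then β n else 0) - T)‖ ≤ E := by
    intro b _
    by_cases hb : b.Coprime f
    · rw [norm_mul]
      have h4 := h (2 * B) f s b (by omega) hs hb
      have h5 := ψ.norm_le_one ((b : ℕ) : ZMod f)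
      calc ‖ψ ((b : ℕ) : ZMod f)‖ *
          ‖(∑ n ∈ Icc 1 Y, if n ≡ b [MOD f] ∧ n.Coprime s then β n else 0) - T‖ ≤ 1 * E :=
            mul_le_mul h5 h4 (norm_nonneg _) zero_le_one
        _ = E := one_mul E
    · have h4 : ¬ IsUnit ((b : ℕ) : ZMod f) := by
        rw [ZMod.isUnit_iff_coprime]
        exact hb
      rw [MulChar.map_nonunit _ h4, zero_mul, norm_zero]
      exact hE0
  refine (norm_sum_le _ _).trans ((Finset.sum_le_sum h3).trans ?_)
  rw [Finset.sum_const, Finset.card_range, nsmul_eq_mul]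
  calc (f : ℝ) * E ≤ L ^ B * E := mul_le_mul_of_nonneg_right hfL hE0
    _ = K (2 * B) * tau s * N / L ^ B := by
        rw [hE, two_mul, pow_add]
        field_simp

end Pool.Agent.BV
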