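import Pool.Agent.BV.Orth
import Pool.Agent.BV.Prim

set_option autoImplicit false

/-! The sum over the moduli, after reduction to primitive characters. -/

namespace Pool.Agent.BV

open Finset
open scoped Classical

/-- the sum over primitive characters for one coprimality condition -/
noncomputable def PS (α β : ℕ → ℂ) (X Y : ℕ) (D Q s : ℕ) : ℝ :=
  ∑ f ∈ Ioc D Q, (1 / (f.totient : ℝ)) * ∑ ψ : DirichletCharacter ℂ f with ψ.IsPrimitive,
    ‖csum α X ψ s‖ * ‖csum β Y ψ s‖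

/-- `bdisc_le`, `sum_primitive`, `q = f t`, `phi (f t) >= phi f * phi t`
(`Nat.totient_super_multiplicative`), exchange of the sums over `f` and `t <= Q`. -/
theorem sum_bdisc_le (α β : ℕ → ℂ) (X Y Q s0 : ℕ) (c : ℕ → ℕ) (hc : ∀ q, (c q).Coprime q) :
    ∑ q ∈ Icc 1 Q, ‖bdisc α β X Y q (c q) s0‖ ≤
      ∑ t ∈ Icc 1 Q, (1 / (t.totient : ℝ)) * PS α β X Y 1 Q (s0 * t) := by
  set G : ℕ → ℕ → ℝ := fun f s => ∑ ψ : DirichletCharacter ℂ f with ψ.IsPrimitive,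
    ‖csum α X ψ s‖ * ‖csum β Y ψ s‖ with hGdef
  have hG : ∀ f s, 0 ≤ G f s := fun f s =>
    Finset.sum_nonneg fun ψ _ => mul_nonneg (norm_nonneg _) (norm_nonneg _)
  have h1 : ∀ q ∈ Icc 1 Q, ‖bdisc α β X Y q (c q) s0‖ ≤
      ∑ f ∈ q.divisors.erase 1, (1 / (q.totient : ℝ)) * G f (s0 * (q / f)) := by
    intro q hq
    have hq1 : 1 ≤ q := (Finset.mem_Icc.mp hq).1
    refine (bdisc_le α β X Y q (c q) s0 hq1 (hc q)).trans ?_
    rw [← Finset.mul_sum]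
    exact mul_le_mul_of_nonneg_left (sum_primitive α β X Y q s0 hq1) (by positivity)
  have hRHS : ∑ t ∈ Icc 1 Q, (1 / (t.totient : ℝ)) * PS α β X Y 1 Q (s0 * t)
      = ∑ y ∈ (Icc 1 Q) ×ˢ (Ioc 1 Q),
        (1 / (y.1.totient : ℝ)) * ((1 / (y.2.totient : ℝ)) * G y.2 (s0 * y.1)) := by
    rw [Finset.sum_product]
    refine Finset.sum_congr rfl fun t _ => ?_
    rw [PS, Finset.mul_sum]
  rw [hRHS]
  refine (Finset.sum_le_sum h1).trans ?_
  rw [Finset.sum_sigma' (Icc 1 Q) (fun q => q.divisors.erase 1)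
    (fun q f => (1 / (q.totient : ℝ)) * G f (s0 * (q / f)))]
  have hmem : ∀ x ∈ (Icc 1 Q).sigma (fun q => q.divisors.erase 1),
      1 ≤ x.1 ∧ x.1 ≤ Q ∧ x.2 ≠ 1 ∧ x.2 ∣ x.1 ∧ 0 < x.2 ∧ x.2 * (x.1 / x.2) = x.1 := by
    intro x hx
    rw [Finset.mem_sigma, Finset.mem_Icc, Finset.mem_erase, Nat.mem_divisors] at hx
    obtain ⟨⟨h1, h2⟩, h3, h4, h5⟩ := hx
    exact ⟨h1, h2, h3, h4, Nat.pos_of_dvd_of_pos h4 h1, Nat.mul_div_cancel' h4⟩
  have h2 : ∑ x ∈ (Icc 1 Q).sigma (fun q => q.divisors.erase 1),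
      (1 / (x.1.totient : ℝ)) * G x.2 (s0 * (x.1 / x.2)) ≤
      ∑ x ∈ (Icc 1 Q).sigma (fun q => q.divisors.erase 1),
        (fun y : ℕ × ℕ => (1 / (y.1.totient : ℝ)) * ((1 / (y.2.totient : ℝ)) * G y.2 (s0 * y.1)))
          ((x.1 / x.2, x.2) : ℕ × ℕ) := by
    refine Finset.sum_le_sum fun x hx => ?_
    obtain ⟨hx1, hx2, hx3, hx4, hx5, hx6⟩ := hmem x hx
    have ht : 0 < x.1 / x.2 := Nat.div_pos (Nat.le_of_dvd hx1 hx4) hx5
    have hφ : ((x.1 / x.2).totient : ℝ) * (x.2.totient : ℝ) ≤ (x.1.totient : ℝ) := by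
      have h := Nat.totient_super_multiplicative (x.1 / x.2) x.2
      rw [Nat.div_mul_cancel hx4] at h
      exact_mod_cast h
    have hp1 : (0 : ℝ) < (x.1 / x.2).totient := by exact_mod_cast Nat.totient_pos.mpr ht
    have hp2 : (0 : ℝ) < x.2.totient := by exact_mod_cast Nat.totient_pos.mpr hx5
    simp only
    rw [← mul_assoc]
    refine mul_le_mul_of_nonneg_right ?_ (hG _ _)
    rw [one_div_mul_one_div]
    exact one_div_le_one_div_of_le (mul_pos hp1 hp2) hφ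
  refine h2.trans ?_
  have hinj : Set.InjOn (fun x : (_ : ℕ) × ℕ => ((x.1 / x.2, x.2) : ℕ × ℕ))
      ((Icc 1 Q).sigma (fun q => q.divisors.erase 1) : Set ((_ : ℕ) × ℕ)) := by
    intro x hx y hy hxy
    obtain ⟨-, -, -, -, -, hx6⟩ := hmem x hx
    obtain ⟨-, -, -, -, -, hy6⟩ := hmem y hy
    simp only [Prod.mk.injEq] at hxy
    obtain ⟨h3, h4⟩ := hxy
    have h5 : x.1 = y.1 := by rw [← hx6, ← hy6, h3, h4]
    rcases x with ⟨x1, x2⟩
    rcases y with ⟨y1, y2⟩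
    simp only at h4 h5
    subst h4
    subst h5
    rfl
  rw [← Finset.sum_image (f := fun y : ℕ × ℕ =>
    (1 / (y.1.totient : ℝ)) * ((1 / (y.2.totient : ℝ)) * G y.2 (s0 * y.1))) hinj]
  refine Finset.sum_le_sum_of_subset_of_nonneg ?_ ?_
  · intro y hy
    rw [Finset.mem_image] at hy
    obtain ⟨x, hx, rfl⟩ := hy
    obtain ⟨hx1, hx2, hx3, hx4, hx5, hx6⟩ := hmem x hx
    rw [Finset.mem_product, Finset.mem_Icc, Finset.mem_Ioc]
    refine ⟨⟨Nat.div_pos (Nat.le_of_dvd hx1 hx4) hx5, (Nat.div_le_self _ _).trans hx2⟩, ?_,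
      (Nat.le_of_dvd hx1 hx4).trans hx2⟩
    change 1 < x.2
    omega
  · intro y _ _
    have := hG y.2 (s0 * y.1)
    positivity

end Pool.Agent.BV
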